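import Pool.Agent.H46.CO.Walk

/-!
# Lower half of the law of the iterated logarithm for the simple random walk
-/

set_option autoImplicit false

namespace Pool.Agent.H46.CO

open Finset Pool.Agent.K4H16.CG

lemma equi_coin (k D : ℕ) : Equi (univ : Finset (Fin k → Bool)) (fun (e : Fin k → Bool) (j : Fin k) => e j) D 0 := by
  intro S _ h _
  have h1 := avg_pi_prod (R := fun _ : Fin k => Bool) S h
  have hc : (0 : ℝ) < (Fintype.card (Fin k → Bool) : ℝ) := by exact_mod_cast Fintype.card_pos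
  rw [div_eq_iff hc.ne'] at h1
  rw [h1, card_univ]
  rw [mul_comm, sub_self, abs_zero, zero_mul]

/-- the steps of a window -/
def fw (k : ℕ) (σ : ℝ) (a b : ℕ) : ∀ _ : Fin k, Bool → ℝ := fun j c => if a ≤ (j : ℕ) ∧ (j : ℕ) < b then σ * sg c else 0

lemma fw_abs (k : ℕ) (σ : ℝ) (hσ : |σ| = 1) (a b : ℕ) (j : Fin k) (c : Bool) : |fw k σ a b j c| ≤ 1 := by
  unfold fw
  split_ifs
  · rw [abs_mul, hσ, sg_abs]
    norm_num
  · simp

lemma fw_avg (k : ℕ) (σ : ℝ) (a b : ℕ) (j : Fin k) : avg (fw k σ a b j) = 0 := by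
  unfold avg fw
  rw [Fintype.sum_bool]
  split_ifs
  · simp [sg]
  · simp

lemma fw_SS (k : ℕ) (σ : ℝ) (a b : ℕ) (hab : a ≤ b) (_ : b ≤ k) (e : Fin k → Bool) :
    SS (fw k σ a b) e = σ * (wk e b - wk e a) := by
  unfold SS wk fw
  rw [← sum_sub_distrib, mul_sum]
  apply sum_congr rfl
  intro j _
  by_cases h1 : (j : ℕ) < a
  · rw [if_neg (by omega), if_pos (by omega), if_pos h1]
    ring
  · by_cases h2 : (j : ℕ) < b
    · rw [if_pos (by omega), if_pos h2, if_neg h1]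
      ring
    · rw [if_neg (by omega), if_neg h2, if_neg h1]
      ring

lemma fw_VV (k : ℕ) (σ : ℝ) (hσ : |σ| = 1) (a b : ℕ) (hab : a ≤ b) (hb : b ≤ k) : VV (fw k σ a b) = (b : ℝ) - a := by
  unfold VV
  have h1 : ∀ j : Fin k, avg (fun c => fw k σ a b j c ^ 2) = if a ≤ (j : ℕ) ∧ (j : ℕ) < b then 1 else 0 := by
    intro j
    have hs : σ ^ 2 = 1 := by rw [← sq_abs, hσ]; norm_num
    unfold avg fw
    rw [Fintype.sum_bool]
    split_ifs
    · simp [sg, hs]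
    · simp
  rw [sum_congr rfl fun j _ => h1 j]
  rw [Fin.sum_univ_eq_sum_range (fun j : ℕ => if a ≤ j ∧ j < b then (1 : ℝ) else 0) k, ← sum_filter]
  have h2 : (range k).filter (fun j => a ≤ j ∧ j < b) = Ico a b := by
    ext j
    rw [mem_filter, mem_range, mem_Ico]
    omega
  rw [h2, sum_const, Nat.card_Ico, nsmul_eq_mul, mul_one, Nat.cast_sub hab]

/-- for most words some window is large -/
theorem windows (k m : ℕ) (y : ℕ → ℕ) (hm : 1 ≤ m) (hy : ∀ a, a < m → y a ≤ y (a + 1)) (hyx : y m ≤ k) (γ L : ℝ) (hγ0 : 0 < γ)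
    (hγ : γ ≤ 1 / 4) (hL64 : 64 ≤ γ ^ 2 * L) (hLV : ∀ a, a < m → 4096 * L ≤ γ ^ 4 * ((y (a + 1) : ℝ) - y a)) (σ : ℝ) (hσ : |σ| = 1) :
    np k (fun e => ∀ a, a < m → σ * (wk e (y (a + 1)) - wk e (y a)) < √(L * ((y (a + 1) : ℝ) - y a)) / (1 + γ)) ≤
      (8 * Real.exp ((1 + 3 * γ) * L / 2) / m + 102 * Real.exp (-(L * γ ^ 2 / 8))) * 2 ^ k := by
  classical
  have hγ2 : γ ^ 2 ≤ 1 / 16 := by nlinarith
  have hγ20 : 0 < γ ^ 2 := by positivity
  have hL00 : 0 < L := by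
    by_contra hcon
    push Not at hcon
    nlinarith
  have hγ40 : 0 < γ ^ 4 := by positivity
  have hΔ0 : ∀ a, a < m → 0 < ((y (a + 1) : ℝ) - y a) := by
    intro a ha
    have h1 := hLV a ha
    by_contra hcon
    push Not at hcon
    have : γ ^ 4 * ((y (a + 1) : ℝ) - y a) ≤ 0 := mul_nonpos_of_nonneg_of_nonpos hγ40.le hcon
    linarith
  have hymx : ∀ a, a ≤ m → y a ≤ k := fun a ha => (mono_steps y m hy a m ha le_rfl).trans hyx
  obtain ⟨K, hK⟩ : ∃ K : ℕ, K = ⌈4096 * L⌉₊ + 8 := ⟨_, rfl⟩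
  have hK1 : 4096 * L ≤ K := by
    rw [hK]
    push_cast
    linarith [Nat.le_ceil (4096 * L)]
  have hK8 : 8 ≤ K := by omega
  obtain ⟨f, hf⟩ : ∃ f : Fin m → ∀ _ : Fin k, Bool → ℝ, f = fun a : Fin m => fw k σ (y a) (y (a + 1)) := ⟨_, rfl⟩
  have hVV : ∀ a : Fin m, VV (f a) = ((y (a + 1) : ℝ) - y a) := by
    intro a
    rw [hf]
    exact fw_VV k σ hσ _ _ (hy a a.2) (hymx _ a.2)
  have hV0 : ∀ a : Fin m, 0 < VV (f a) := by
    intro a
    rw [hVV]
    exact hΔ0 a a.2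
  have hSS : ∀ (a : Fin m) (e : Fin k → Bool), SS (f a) e = σ * (wk e (y (a + 1)) - wk e (y a)) := by
    intro a e
    rw [hf]
    exact fw_SS k σ _ _ (hy a a.2) (hymx _ a.2) e
  have hL' : ∀ a : Fin m, √(L / VV (f a)) ^ 2 * VV (f a) = L := by
    intro a
    rw [Real.sq_sqrt (div_nonneg hL00.le (hV0 a).le), div_mul_cancel₀ _ (hV0 a).ne']
  have hu : ∀ a : Fin m, 64 * √(L / VV (f a)) ≤ 2 * γ ^ 2 := by
    intro a
    have h1 : √(L / VV (f a)) ≤ γ ^ 2 / 32 := by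
      rw [Real.sqrt_le_left (by positivity), div_le_iff₀ (hV0 a), hVV]
      have := hLV a a.2
      have e : (γ ^ 2 / 32) ^ 2 = γ ^ 4 / 1024 := by ring
      rw [e]
      linarith
    linarith
  have hT : ∀ a : Fin m, √(L / VV (f a)) * VV (f a) / (1 + γ) = √(L * ((y (a + 1) : ℝ) - y a)) / (1 + γ) := by
    intro a
    have h1 : √(L / VV (f a)) * VV (f a) = √(L * VV (f a)) := by
      have h2 : VV (f a) = √(VV (f a)) * √(VV (f a)) := (Real.mul_self_sqrt (hV0 a).le).symm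
      rw [Real.sqrt_div hL00.le, Real.sqrt_mul hL00.le]
      have h3 : 0 < √(VV (f a)) := Real.sqrt_pos.2 (hV0 a)
      calc √L / √(VV (f a)) * VV (f a) = √L / √(VV (f a)) * (√(VV (f a)) * √(VV (f a))) := by rw [← h2]
        _ = √L * √(VV (f a)) := by field_simp
    rw [h1, hVV]
  have hdis : ∀ a b : Fin m, a ≠ b → ∀ j : Fin k, (∀ c, f a j c = 0) ∨ (∀ c, f b j c = 0) := by
    intro a b hab j
    rw [hf]
    have hne : ¬ (y a ≤ (j : ℕ) ∧ (j : ℕ) < y (a + 1)) ∨ ¬ (y b ≤ (j : ℕ) ∧ (j : ℕ) < y (b + 1)) := by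
      rcases Nat.lt_or_gt_of_ne (fun h => hab (Fin.ext h)) with h | h
      · have := mono_steps y m hy (a + 1) b h b.2.le
        omega
      · have := mono_steps y m hy (b + 1) a h a.2.le
        omega
    rcases hne with h | h
    · exact Or.inl fun c => by simp only [fw]; rw [if_neg h]
    · exact Or.inr fun c => by simp only [fw]; rw [if_neg h]
  have h1 := second_moment (univ : Finset (Fin k → Bool)) (fun (e : Fin k → Bool) (j : Fin k) => e j) K hK8 0 le_rfl (equi_coin k (4 * K))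
    (by rw [mul_zero]; norm_num) m hm f (fun a j b => by rw [hf]; exact fw_abs k σ hσ _ _ j b)
    (fun a j => by rw [hf]; exact fw_avg k σ _ _ j) hdis γ hγ0 hγ (fun a => √(L / VV (f a)))
    (fun a => Real.sqrt_pos.2 (div_pos hL00 (hV0 a))) hu L hL' hL64 hK1
  rw [card_univ, Fintype.card_fun, Fintype.card_bool, Fintype.card_fin] at h1
  push_cast at h1
  refine le_trans (le_of_eq ?_) h1
  apply np_eq_card
  intro e
  constructor
  · intro h a
    have e0 : SS (f a) (fun j => e j) = SS (f a) e := rfl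
    rw [e0, hSS, hT]
    exact h a a.2
  · intro h a ha
    have h2 := h ⟨a, ha⟩
    have e0 : SS (f ⟨a, ha⟩) (fun j => e j) = SS (f ⟨a, ha⟩) e := rfl
    rw [e0, hSS, hT] at h2
    exact h2

/-- **lower half** -/
theorem coin_low (ε δ : ℝ) (hε : 0 < ε) (hδ : 0 < δ) (hδ1 : δ ≤ 1) : ∃ k₀ : ℕ, 3 ≤ k₀ ∧ ∀ k : ℕ, k₀ ≤ k → ∀ σ : ℝ, |σ| = 1 →
    np k (fun e => ¬ ∃ j ≤ k, (k : ℝ) ^ (1 - δ) ≤ j ∧ (1 - δ) * √(2 * j * Real.log (Real.log k)) ≤ σ * wk e j) ≤ ε * 2 ^ k := by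
  obtain ⟨γ, hγd⟩ : ∃ γ : ℝ, γ = δ / 32 := ⟨_, rfl⟩
  have hγ0 : 0 < γ := by rw [hγd]; positivity
  have hγ1 : γ ≤ 1 / 32 := by rw [hγd]; linarith
  obtain ⟨R, hR⟩ : ∃ R : ℕ, R = ⌈16 / γ ^ 2⌉₊ + 3 := ⟨_, rfl⟩
  have hR3 : 3 ≤ R := by omega
  have hR16 : 16 / γ ^ 2 ≤ R := by
    rw [hR]
    push_cast
    linarith [Nat.le_ceil (16 / γ ^ 2)]
  have hRr : (3 : ℝ) ≤ R := by exact_mod_cast hR3
  have hR1 : (1 : ℝ) ≤ R := by linarith
  have hR0 : (0 : ℝ) < R := by linarith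
  obtain ⟨J₀, hJ₀⟩ := low_params γ δ ε 1 2 R hγ0 hγd hδ1 hε (by norm_num) (by omega)
  refine ⟨R ^ (J₀ + 1), ?_, ?_⟩
  · calc 3 ≤ R := hR3
      _ = R ^ 1 := (pow_one _).symm
      _ ≤ R ^ (J₀ + 1) := Nat.pow_le_pow_right (by omega) (by omega)
  intro t ht3 σ hσ
  have ht0 : t ≠ 0 := by
    have : 0 < R ^ (J₀ + 1) := by positivity
    omega
  obtain ⟨V, hV⟩ : ∃ V : ℝ, V = (t : ℝ) := ⟨_, rfl⟩
  have hV0 : 0 < V := by rw [hV]; exact_mod_cast Nat.pos_of_ne_zero ht0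
  obtain ⟨J, hJ⟩ : ∃ J : ℕ, J = Nat.log R t := ⟨_, rfl⟩
  have hJ1 : R ^ J ≤ t := by rw [hJ]; exact Nat.pow_log_le_self R ht0
  have hJ2 : t < R ^ (J + 1) := by rw [hJ]; exact Nat.lt_pow_succ_log_self (by omega) t
  have hJ3 : J₀ ≤ J := by
    have : J₀ + 1 ≤ J := by
      rw [hJ]
      exact Nat.le_log_of_pow_le (by omega) ht3
    omega
  have hJ4 : (R : ℝ) ^ J ≤ V := by rw [hV]; exact_mod_cast hJ1
  have hJ5 : V < (R : ℝ) ^ (J + 1) := by rw [hV]; exact_mod_cast hJ2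
  obtain ⟨m, m1, m2, m3, m4, m5, m6, m7, m8, m9, m10⟩ := hJ₀ J hJ3
  obtain ⟨l, hl⟩ : ∃ l : ℝ, l = Real.log J := ⟨_, rfl⟩
  obtain ⟨L, hL⟩ : ∃ L : ℝ, L = 2 * (1 - 4 * γ) * Real.log m := ⟨_, rfl⟩
  rw [← hL] at m7 m8 m9
  rw [← hl] at m4 m5 m6 m9 m10
  have hJpos : 1 ≤ J := by omega
  -- the points
  obtain ⟨y, hy⟩ : ∃ y : ℕ → ℕ, y = fun k => R ^ (J - m + k) := ⟨_, rfl⟩
  have hy1 : ∀ k, k < m → y k ≤ y (k + 1) := by
    intro k _
    rw [hy]
    exact Nat.pow_le_pow_right (by omega) (by omega)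
  have hyx : ∀ k, k ≤ m → y k ≤ t := by
    intro k hk
    rw [hy]
    exact (Nat.pow_le_pow_right (by omega) (by omega)).trans hJ1
  have hyc : ∀ k, (y k : ℝ) = (R : ℝ) ^ (J - m + k) := by
    intro k
    rw [hy]
    push_cast
    rfl
  have hgap : ∀ k, k < m → (2 : ℝ) ^ (J - m) ≤ (y (k + 1) : ℝ) - y k := by
    intro k hk
    rw [hyc, hyc]
    have h3 : (R : ℝ) ^ (J - m + (k + 1)) = R * (R : ℝ) ^ (J - m + k) := by
      rw [← add_assoc, pow_succ]
      ring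
    have h4 : (1 : ℝ) ≤ (R : ℝ) ^ (J - m + k) := one_le_pow₀ hR1
    have h5 : (2 : ℝ) ^ (J - m) ≤ (R : ℝ) ^ (J - m + k) :=
      (pow_le_pow_left₀ (by norm_num) (by linarith) _).trans (pow_le_pow_right₀ hR1 (by omega))
    rw [h3]
    nlinarith
  have hγ4 : 0 < γ ^ 4 := by positivity
  have w1 := windows t m y m1 hy1 (hyx m le_rfl) γ L hγ0 (by linarith) m7 (by
    intro k hk
    refine m8.trans ?_
    exact mul_le_mul_of_nonneg_left (hgap k hk) hγ4.le) σ hσ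
  have w2 : np t (fun e => ∃ k ∈ range (m + 1), 4 * √l * √(y k) ≤ |wk e (y k)|) ≤ (m + 1) * (2 * Real.exp (-(4 * l))) * 2 ^ t := by
    refine (np_biUnion (range (m + 1)) (fun k e => 4 * √l * √(y k) ≤ |wk e (y k)|) (fun e h => h)).trans ?_
    have h1 : ∀ k ∈ range (m + 1), np t (fun e => 4 * √l * √(y k) ≤ |wk e (y k)|) ≤ 2 * Real.exp (-(4 * l)) * 2 ^ t := by
      intro k hk
      rw [mem_range] at hk
      have hyk : 1 ≤ y k := by
        rw [hy]
        exact Nat.one_le_pow _ _ (by omega)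
      have hyk0 : (0 : ℝ) < y k := by exact_mod_cast hyk
      have hl0 : 0 ≤ l := by linarith
      have h2 := max_abs (y k) t hyk (4 * √l * √(y k)) (by positivity)
      have h3 : np t (fun e => 4 * √l * √(y k) ≤ |wk e (y k)|) ≤ np t (fun e => ∃ j ≤ y k, 4 * √l * √(y k) ≤ |wk e j|) :=
        np_mono fun e h => ⟨y k, le_rfl, h⟩
      have h4 : Real.exp (-((4 * √l * √(y k)) ^ 2 / (2 * (y k)))) ≤ Real.exp (-(4 * l)) := by
        apply Real.exp_le_exp.2
        apply neg_le_neg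
        rw [le_div_iff₀ (by positivity), mul_pow, mul_pow, Real.sq_sqrt hl0, Real.sq_sqrt hyk0.le]
        nlinarith [mul_nonneg hl0 hyk0.le]
      have h5 : (0 : ℝ) < 2 ^ t := by positivity
      have h6 := mul_le_mul_of_nonneg_left h4 (show (0 : ℝ) ≤ 2 ^ t * 2 by positivity)
      linarith
    refine (sum_le_sum h1).trans ?_
    rw [sum_const, card_range, nsmul_eq_mul]
    push_cast
    apply le_of_eq
    ring
  have h3 : np t (fun e => ¬ ∃ j ≤ t, (t : ℝ) ^ (1 - δ) ≤ j ∧ (1 - δ) * √(2 * j * Real.log (Real.log t)) ≤ σ * wk e j) ≤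
      np t (fun e => ∀ a, a < m → σ * (wk e (y (a + 1)) - wk e (y a)) < √(L * ((y (a + 1) : ℝ) - y a)) / (1 + γ)) +
      np t (fun e => ∃ k ∈ range (m + 1), 4 * √l * √(y k) ≤ |wk e (y k)|) := by
    apply np_or
    intro e he
    by_contra hcon
    push Not at hcon
    obtain ⟨⟨k, hk, hk1⟩, c2⟩ := hcon
    have hk2 := c2 k (mem_range.2 (by omega))
    apply he
    refine ⟨y (k + 1), hyx (k + 1) hk, ?_, ?_⟩
    · rw [hyc, ← hV]
      calc V ^ (1 - δ) ≤ ((R : ℝ) ^ (J + 1)) ^ (1 - δ) := Real.rpow_le_rpow hV0.le hJ5.le (by linarith)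
        _ = (R : ℝ) ^ (((J + 1 : ℕ) : ℝ) * (1 - δ)) := by
            rw [← Real.rpow_natCast, ← Real.rpow_mul hR0.le]
        _ ≤ (R : ℝ) ^ (((J - m + (k + 1) : ℕ)) : ℝ) := by
            apply Real.rpow_le_rpow_of_exponent_le hR1
            push_cast [Nat.cast_sub (show m ≤ J by omega)]
            have h1 : (0 : ℝ) ≤ k := Nat.cast_nonneg _
            have h2 : (0 : ℝ) ≤ J := Nat.cast_nonneg _
            nlinarith
        _ = (R : ℝ) ^ (J - m + (k + 1)) := Real.rpow_natCast _ _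
    · obtain ⟨Y, hY⟩ : ∃ Y : ℝ, Y = (y (k + 1) : ℝ) := ⟨_, rfl⟩
      obtain ⟨c, hc⟩ : ∃ c : ℝ, c = (y k : ℝ) := ⟨_, rfl⟩
      rw [← hY, ← hc] at hk1
      rw [← hc] at hk2
      rw [← hY, ← hV]
      have hP1 : (1 : ℝ) ≤ (R : ℝ) ^ (J - m + k) := one_le_pow₀ hR1
      have hYlo : Y = R * (R : ℝ) ^ (J - m + k) := by
        rw [hY, hyc, ← add_assoc, pow_succ]
        ring
      have hclo : c = (R : ℝ) ^ (J - m + k) := by rw [hc, hyc]
      have hc8 : c ≤ γ ^ 2 / 8 * Y := by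
        have h4 : 16 ≤ γ ^ 2 * R := by
          rw [div_le_iff₀ (by positivity)] at hR16
          linarith
        rw [hYlo, hclo]
        have h5 : 2 * (R : ℝ) ^ (J - m + k) ≤ γ ^ 2 / 8 * (R * (R : ℝ) ^ (J - m + k)) := by
          have : 2 * (R : ℝ) ^ (J - m + k) = 16 / 8 * (R : ℝ) ^ (J - m + k) := by ring
          rw [this]
          calc 16 / 8 * (R : ℝ) ^ (J - m + k) ≤ (γ ^ 2 * R) / 8 * (R : ℝ) ^ (J - m + k) := by gcongr
            _ = _ := by ring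
        linarith
      have hY0 : 0 < Y := by
        rw [hYlo]
        positivity
      have hδγ : 1 - δ = 1 - 32 * γ := by rw [hγd]; ring
      rw [hδγ]
      refine low_final γ Y c l L (Real.log (Real.log V)) (σ * wk e (y (k + 1))) hγ0 hγ1 hY0 (by linarith) hc8 (by linarith) ?_ ?_ ?_
      · rw [hL]
        apply mul_le_mul_of_nonneg_left m4
        linarith
      · refine le_trans ?_ m10
        have hlR : 0 < Real.log R := Real.log_pos (by linarith)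
        have h7 : Real.log V ≤ (J + 1) * Real.log R := by
          have h8 : Real.log V ≤ Real.log ((R : ℝ) ^ (J + 1)) := Real.log_le_log hV0 hJ5.le
          rw [Real.log_pow] at h8
          push_cast at h8
          exact h8
        have h9 : 0 < Real.log V := by
          apply Real.log_pos
          have h13 : (3 : ℝ) ≤ (R : ℝ) ^ J := by
            calc (3 : ℝ) ≤ R := hRr
              _ = (R : ℝ) ^ 1 := (pow_one _).symm
              _ ≤ (R : ℝ) ^ J := pow_le_pow_right₀ hR1 hJpos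
          linarith
        exact Real.log_le_log h9 h7
      · have h7 : |σ * wk e (y k)| < 4 * √l * √c := by
          rw [abs_mul, hσ, one_mul]
          exact hk2
        have h8 := (abs_lt.1 h7).1
        have h9 : σ * (wk e (y (k + 1)) - wk e (y k)) = σ * wk e (y (k + 1)) - σ * wk e (y k) := by ring
        rw [h9] at hk1
        linarith
  have h4 : (8 * Real.exp ((1 + 3 * γ) * L / 2) / m + 102 * Real.exp (-(L * γ ^ 2 / 8)) + (m + 1) * (2 * Real.exp (-(4 * l)))) * 2 ^ t ≤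
      ε * 2 ^ t := mul_le_mul_of_nonneg_right m9 (by positivity)
  linarith

end Pool.Agent.H46.CO
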