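import Pool.Agent.H46.CO.Walk

/-!
# Upper half of the law of the iterated logarithm for the simple random walk
-/

set_option autoImplicit false

namespace Pool.Agent.H46.CO

open Finset Filter Pool.Agent.H46.SW

lemma rpow_log_neg (c : ℝ) (l : ℕ) (hl : 1 ≤ l) : Real.exp (-(c * Real.log l)) = (l : ℝ) ^ (-c) := by
  have : (0 : ℝ) < l := by exact_mod_cast hl
  rw [Real.rpow_def_of_pos this]
  congr 1
  ring

/-- one level -/
lemma level (δ κ : ℝ) (hδ : 0 < δ) (hκ : 0 < κ) (k l : ℕ) (hl : 1 ≤ l) :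
    np k (fun e => ∃ j ≤ ⌊Real.exp (κ * l)⌋₊, yl δ l * √(Real.exp (κ * l)) ≤ |wk e j|) ≤ 2 ^ k * (2 * (l : ℝ) ^ (-(1 + δ / 3))) := by
  have hl1 : (1 : ℝ) ≤ l := by exact_mod_cast hl
  have hlog := Real.log_nonneg hl1
  have hE1 : 1 ≤ Real.exp (κ * l) := Real.one_le_exp (by positivity)
  obtain ⟨n, hn⟩ : ∃ n : ℕ, n = ⌊Real.exp (κ * l)⌋₊ := ⟨_, rfl⟩
  rw [← hn]
  have hn1 : 1 ≤ n := by rw [hn]; exact Nat.le_floor (by simpa using hE1)
  have hnE : (n : ℝ) ≤ Real.exp (κ * l) := by rw [hn]; exact Nat.floor_le (by positivity)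
  have hn0 : (0 : ℝ) < n := by exact_mod_cast hn1
  have hy0 : 0 ≤ yl δ l := by unfold yl; positivity
  have h1 := max_abs n k hn1 (yl δ l * √(Real.exp (κ * l))) (by positivity)
  refine h1.trans ?_
  have h2 : Real.exp (-((yl δ l * √(Real.exp (κ * l))) ^ 2 / (2 * n))) ≤ (l : ℝ) ^ (-(1 + δ / 3)) := by
    rw [← rpow_log_neg _ l hl]
    apply Real.exp_le_exp.2
    apply neg_le_neg
    rw [mul_pow, Real.sq_sqrt (Real.exp_pos _).le, yl_sq δ l hl]
    rw [le_div_iff₀ (by positivity)]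
    have h3 : (1 + δ / 3) * Real.log l * (2 * n) ≤ (1 + δ / 3) * Real.log l * (2 * Real.exp (κ * l)) :=
      mul_le_mul_of_nonneg_left (by linarith) (by positivity)
    refine h3.trans ?_
    have h4 : (1 + δ / 3) ≤ (1 + δ / 3) ^ 2 := by nlinarith
    have h5 := mul_le_mul_of_nonneg_right h4 (show 0 ≤ Real.log l * (2 * Real.exp (κ * l)) by positivity)
    linarith
  have h3 : (0 : ℝ) < 2 ^ k := by positivity
  have := mul_le_mul_of_nonneg_left h2 (show (0 : ℝ) ≤ 2 ^ k * 2 by positivity)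
  linarith

/-- **upper half** -/
theorem coin_up (η δ : ℝ) (hη : 0 < η) (hδ : 0 < δ) (hδ1 : δ ≤ 1) : ∃ j₀ : ℕ, 3 ≤ j₀ ∧ ∀ k : ℕ,
    np k (fun e => ∃ j ≤ k, j₀ ≤ j ∧ (1 + δ) * √(2 * j * Real.log (Real.log j)) < |wk e j|) ≤ η * 2 ^ k := by
  obtain ⟨κ, hκ⟩ : ∃ κ : ℝ, κ = δ / 12 := ⟨_, rfl⟩
  have hκ0 : 0 < κ := by rw [hκ]; positivity
  have hκ1 : κ ≤ 1 / 12 := by rw [hκ]; linarith
  obtain ⟨l₀, hl₀⟩ := tail_sum δ (η / 2) hδ (by positivity)
  -- conditions for large `j`
  obtain ⟨N₁, hN₁3, hN₁⟩ := ev_loglog (6 / δ * Real.log (2 / κ) + κ * (l₀ + 2) + 1 + 6 / δ * |Real.log (2 / κ)|)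
  refine ⟨N₁, hN₁3, fun k => ?_⟩
  have hT := np_biUnion (k := k) ((range (⌊Real.log k / κ⌋₊ + 2)).filter fun l => l₀ ≤ l ∧ 1 ≤ l)
    (P := fun e => ∃ j ≤ k, N₁ ≤ j ∧ (1 + δ) * √(2 * j * Real.log (Real.log j)) < |wk e j|)
    (fun l e => ∃ j ≤ ⌊Real.exp (κ * l)⌋₊, yl δ l * √(Real.exp (κ * l)) ≤ |wk e j|) (by
      rintro e ⟨j, hjk, hj, h⟩
      have hj3 : 3 ≤ j := hN₁3.trans hj
      have hj0 : (0 : ℝ) < j := by exact_mod_cast (show 0 < j by omega)
      have hj1 : (1 : ℝ) ≤ j := by exact_mod_cast (show 1 ≤ j by omega)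
      obtain ⟨g1, g2⟩ := hN₁ j (by exact_mod_cast hj)
      obtain ⟨l, hl⟩ : ∃ l : ℕ, l = ⌊Real.log j / κ⌋₊ + 1 := ⟨_, rfl⟩
      have hlogj : 0 ≤ Real.log j := Real.log_nonneg hj1
      have hq : 0 ≤ Real.log j / κ := by positivity
      have hl1 : (l : ℝ) ≤ Real.log j / κ + 1 := by rw [hl]; push_cast; linarith [Nat.floor_le hq]
      have hl2 : Real.log j / κ < l := by rw [hl]; push_cast; exact Nat.lt_floor_add_one _
      have hl3 : Real.log j < κ * l := by rw [div_lt_iff₀ hκ0] at hl2; linarith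
      have hl4 : κ * l ≤ Real.log j + κ := by
        have := mul_le_mul_of_nonneg_left hl1 hκ0.le
        rw [mul_add, mul_div_cancel₀ _ hκ0.ne'] at this
        linarith
      have a0 : 0 ≤ |Real.log (2 / κ)| + Real.log (2 / κ) := by linarith [neg_abs_le (Real.log (2 / κ))]
      have a1 : 0 ≤ 6 / δ * (|Real.log (2 / κ)| + Real.log (2 / κ)) := by positivity
      have hll : l₀ + 1 ≤ l := by
        have h1 : κ * (l₀ + 2) ≤ Real.log j := by linarith
        have h2 : κ * (l₀ + 2 : ℝ) < κ * l := by linarith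
        have h3 : (l₀ : ℝ) + 2 < l := lt_of_mul_lt_mul_left h2 hκ0.le
        have h4 : ((l₀ + 2 : ℕ) : ℝ) < l := by push_cast; exact h3
        have := Nat.cast_lt.1 h4
        omega
      refine ⟨l, ?_, j, ?_, ?_⟩
      · rw [mem_filter, mem_range]
        refine ⟨?_, by omega, by omega⟩
        have h1 : ⌊Real.log j / κ⌋₊ ≤ ⌊Real.log k / κ⌋₊ := by
          apply Nat.floor_mono
          apply div_le_div_of_nonneg_right _ hκ0.le
          exact Real.log_le_log hj0 (by exact_mod_cast hjk)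
        omega
      · apply Nat.le_floor
        rw [← Real.exp_log hj0]
        exact Real.exp_le_exp.2 hl3.le
      · refine le_trans ?_ h.le
        have hW : Real.exp (κ * l) ≤ (1 + δ / 6) * j := by
          calc Real.exp (κ * l) ≤ Real.exp (Real.log j + κ) := Real.exp_le_exp.2 hl4
            _ = j * Real.exp κ := by rw [Real.exp_add, Real.exp_log hj0]
            _ ≤ j * (1 + δ / 6) := by
                apply mul_le_mul_of_nonneg_left _ hj0.le
                have h1 := Real.exp_bound_div_one_sub_of_interval hκ0.le (by linarith : κ < 1)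
                refine h1.trans ?_
                rw [div_le_iff₀ (by linarith)]
                rw [hκ]
                nlinarith
            _ = _ := by ring
        have hlogl : Real.log l ≤ (1 + δ / 6) * Real.log (Real.log j) := by
          have h1 : (l : ℝ) ≤ Real.log j * (2 / κ) := by
            have h2 : 1 ≤ Real.log j / κ := by
              rw [le_div_iff₀ hκ0]
              linarith [show 0 ≤ κ * (l₀ + 2) by positivity]
            calc (l : ℝ) ≤ Real.log j / κ + Real.log j / κ := by linarith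
              _ = _ := by ring
          have hlp : (0 : ℝ) < l := by exact_mod_cast (show 0 < l by omega)
          have hlj : 0 < Real.log j := by linarith [show 0 ≤ κ * (l₀ + 2) by positivity]
          have h2 : Real.log l ≤ Real.log (Real.log j) + Real.log (2 / κ) := by
            rw [← Real.log_mul hlj.ne' (by positivity)]
            exact Real.log_le_log hlp h1
          have h3 : Real.log (2 / κ) ≤ δ / 6 * Real.log (Real.log j) := by
            have h4 : 6 / δ * Real.log (2 / κ) ≤ Real.log (Real.log j) := by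
              have : 0 ≤ 6 / δ * |Real.log (2 / κ)| := by positivity
              linarith [show 0 ≤ κ * (l₀ + 2) by positivity]
            have h5 := mul_le_mul_of_nonneg_left h4 (show 0 ≤ δ / 6 by positivity)
            have h6 : δ / 6 * (6 / δ * Real.log (2 / κ)) = Real.log (2 / κ) := by field_simp
            linarith
          linarith
        exact up_final δ j (Real.exp (κ * l)) (Real.log l) (Real.log (Real.log j)) l hδ hδ1 hj0.le hW (by positivity)
          (by omega) rfl hlogl (by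
            have : 0 ≤ κ * (l₀ + 2) := by positivity
            linarith))
  refine hT.trans ?_
  have h1 : ∑ l ∈ (range (⌊Real.log k / κ⌋₊ + 2)).filter (fun l => l₀ ≤ l ∧ 1 ≤ l),
      np k (fun e => ∃ j ≤ ⌊Real.exp (κ * l)⌋₊, yl δ l * √(Real.exp (κ * l)) ≤ |wk e j|) ≤
      ∑ l ∈ (range (⌊Real.log k / κ⌋₊ + 2)).filter (fun l => l₀ ≤ l ∧ 1 ≤ l), 2 ^ k * (2 * (l : ℝ) ^ (-(1 + δ / 3))) := by
    apply sum_le_sum
    intro l hl
    rw [mem_filter] at hl
    exact level δ κ hδ hκ0 k l hl.2.2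
  refine h1.trans ?_
  rw [← mul_sum, ← mul_sum]
  have h2 := hl₀ ((range (⌊Real.log k / κ⌋₊ + 2)).filter (fun l => l₀ ≤ l ∧ 1 ≤ l)) (by
    intro l hl
    rw [mem_filter] at hl
    exact hl.2.1)
  have h3 : (0 : ℝ) < 2 ^ k := by positivity
  have h4 := mul_le_mul_of_nonneg_left h2 (show (0 : ℝ) ≤ 2 ^ k * 2 by positivity)
  linarith

end Pool.Agent.H46.CO
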