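import Pool.Agent.H46.CO.Mx
import Pool.Agent.H46.CO.CoinUp
import Pool.Agent.H46.CO.CoinLo
import Pool.Graph.R_seed8.R469.Rig
import Pool.Graph.R_seed8.H499R2.NDLln3

/-!
# The law of the iterated logarithm for trajectories
-/

set_option autoImplicit false

namespace Pool.Agent.H46.CO

open Pool.Agent.H320R2.PD Pool.Agent.H499R2.ND Finset Filter Topology

/-- `t` is the total stopping time of `n` -/
def TST (n t : ℕ) : Prop := Tn^[t] n = 1 ∧ ∀ j < t, Tn^[j] n ≠ 1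

/-- the walk of the trajectory of a natural number -/
noncomputable def dn (j n : ℕ) : ℝ := dv j (n : ℤ)

lemma TST_unique {n t t' : ℕ} (h : TST n t) (h' : TST n t') : t = t' := by
  rcases lt_trichotomy t t' with h1 | h1 | h1
  · exact absurd h.1 (h'.2 t h1)
  · exact h1
  · exact absurd h'.1 (h.2 t' h1)

lemma TST_of_Bas {n : ℕ} (h : Bas n) : ∃ t, TST n t := by
  classical
  refine ⟨Nat.find h, Nat.find_spec h, fun j hj => Nat.find_min h hj⟩

lemma dn_eq (j n : ℕ) : dn j n = 2 * (((range j).filter fun i => Tn^[i] n % 2 = 1).card : ℝ) - j := by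
  unfold dn dv
  have h1 : ∀ i ∈ range j, (if (Td 1)^[i] (n : ℤ) % 2 = 1 then (1 : ℝ) else -1) = 2 * (if Tn^[i] n % 2 = 1 then (1 : ℝ) else 0) - 1 := by
    intro i _
    rw [Td_iter_cast]
    by_cases h : Tn^[i] n % 2 = 1
    · rw [if_pos h, if_pos (by omega)]
      norm_num
    · rw [if_neg h, if_neg (by omega)]
      norm_num
  rw [sum_congr rfl h1, sum_sub_distrib, ← mul_sum, sum_const, card_range, nsmul_eq_mul, mul_one, card_filter]
  push_cast
  rfl

lemma dv_abs (j : ℕ) (M : ℤ) : |dv j M| ≤ j := by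
  unfold dv
  refine (abs_sum_le_sum_abs _ _).trans ?_
  have h1 : ∀ i ∈ range j, |(if (Td 1)^[i] M % 2 = 1 then (1 : ℝ) else -1)| ≤ 1 := by
    intro i _
    split_ifs <;> simp
  refine (sum_le_sum h1).trans ?_
  simp

lemma dn_add (i j n : ℕ) : dn (i + j) n = dn i n + dn j (Tn^[i] n) := by
  unfold dn
  rw [dv_add, Td_iter_cast]

/-- counting naturals with a property of the parity word -/
lemma cnt_word (k : ℕ) (P : (Fin k → Bool) → Prop) (N : ℕ) (hN : 2 ^ k ≤ N) :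
    cnt (fun n => P (pt k (n : ℤ))) N ≤ 2 * np k P * (N / 2 ^ k) := by
  classical
  have hN1 : (1 : ℝ) ≤ N := by exact_mod_cast (Nat.one_le_two_pow.trans hN)
  have h1 := word_count k 0 (a := 1) (b := (N : ℝ) + 1) (by linarith) (u := 1) isCoprime_one_left 0 P
  have h2 : cnt (fun n => P (pt k (n : ℤ))) N ≤
      (((Ico ⌈(1 : ℝ)⌉ ⌈(N : ℝ) + 1⌉).filter fun M : ℤ => P (pt k M) ∧ (3 : ℤ) ^ 0 ∣ 1 * M - 0).card : ℝ) := by
    rw [cnt_eq]
    have h3 : ((Icc 1 N).filter fun n : ℕ => P (pt k (n : ℤ))).image (fun n : ℕ => (n : ℤ)) ⊆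
        (Ico ⌈(1 : ℝ)⌉ ⌈(N : ℝ) + 1⌉).filter fun M : ℤ => P (pt k M) ∧ (3 : ℤ) ^ 0 ∣ 1 * M - 0 := by
      intro x hx
      rw [mem_image] at hx
      obtain ⟨n, hn, rfl⟩ := hx
      rw [mem_filter, mem_Icc] at hn
      rw [mem_filter, mem_win]
      refine ⟨⟨?_, ?_⟩, hn.2, by simp⟩
      · push_cast
        exact_mod_cast hn.1.1
      · push_cast
        have : (n : ℝ) ≤ N := by exact_mod_cast hn.1.2
        linarith
    have h4 := card_le_card h3
    rw [card_image_of_injective _ (fun a b h => by exact_mod_cast h)] at h4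
    exact Nat.cast_le.2 h4
  refine h2.trans (h1.trans ?_)
  have h5 : ((N : ℝ) + 1 - 1) / (2 ^ k * 3 ^ 0) + 1 ≤ 2 * (N / 2 ^ k) := by
    rw [pow_zero, mul_one, add_sub_cancel_right]
    have h6 : 1 ≤ (N : ℝ) / 2 ^ k := by
      rw [le_div_iff₀ (by positivity), one_mul]
      exact_mod_cast hN
    linarith
  calc np k P * (((N : ℝ) + 1 - 1) / (2 ^ k * 3 ^ 0) + 1) ≤ np k P * (2 * (N / 2 ^ k)) := mul_le_mul_of_nonneg_left h5 (np_nonneg _ _)
    _ = _ := by ring

/-- the first part of the trajectory -/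
lemma up_first (η δ : ℝ) (hη : 0 < η) (hδ : 0 < δ) (hδ1 : δ ≤ 1) : ∃ j₀ : ℕ, 3 ≤ j₀ ∧ ∀ N : ℕ, 1 ≤ N →
    cnt (fun n => ∃ j ≤ Nat.log 2 N, j₀ ≤ j ∧ (1 + δ) * √(2 * j * Real.log (Real.log j)) < |dn j n|) N ≤ η * N := by
  obtain ⟨j₀, hj₀, h⟩ := coin_up (η / 2) δ (by positivity) hδ hδ1
  refine ⟨j₀, hj₀, fun N hN => ?_⟩
  obtain ⟨k, hk⟩ : ∃ k : ℕ, k = Nat.log 2 N := ⟨_, rfl⟩
  rw [← hk]
  have hkN : 2 ^ k ≤ N := by rw [hk]; exact Nat.pow_log_le_self 2 (by omega)
  have h1 := cnt_word k (fun e => ∃ j ≤ k, j₀ ≤ j ∧ (1 + δ) * √(2 * j * Real.log (Real.log j)) < |wk e j|) N hkN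
  have h2 := h k
  have h3 : cnt (fun n => ∃ j ≤ k, j₀ ≤ j ∧ (1 + δ) * √(2 * j * Real.log (Real.log j)) < |dn j n|) N ≤
      cnt (fun n => ∃ j ≤ k, j₀ ≤ j ∧ (1 + δ) * √(2 * j * Real.log (Real.log j)) < |wk (pt k (n : ℤ)) j|) N := by
    apply cnt_mono
    rintro n _ _ ⟨j, hj, hj1, hj2⟩
    exact ⟨j, hj, hj1, by rw [wk_pt k n j hj]; exact hj2⟩
  refine h3.trans (h1.trans ?_)
  have h4 : (0 : ℝ) < 2 ^ k := by positivity
  calc 2 * np k (fun e => ∃ j ≤ k, j₀ ≤ j ∧ (1 + δ) * √(2 * j * Real.log (Real.log j)) < |wk e j|) * (N / 2 ^ k)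
      ≤ 2 * (η / 2 * 2 ^ k) * (N / 2 ^ k) := by
        apply mul_le_mul_of_nonneg_right _ (by positivity)
        linarith
    _ = η * N := by field_simp

/-- the walk before the total stopping time -/
lemma before (y : ℝ) : ∃ W : ℕ, ∀ (n t : ℕ) (D : ℝ), 1 ≤ n → 0 ≤ D → TST n t → ((n : ℕ) : ℤ) ∉ Viol y D 0 →
    ∀ j ≤ t, |dn j n| ≤ D + W + 1 := by
  obtain ⟨W, hW⟩ := TG.exW ({1} : Set ℤ) y
  refine ⟨W, fun n t D hn hD ht hV j hj => ?_⟩
  have hnv : ∀ i : ℕ, (∀ a ≤ i, y ≤ ((Tn^[a] n : ℕ) : ℝ)) → |dn i n| ≤ D := by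
    intro i hi
    by_contra hcon
    push Not at hcon
    apply hV
    refine ⟨i, fun a ha => ?_, ?_⟩
    · rw [Td_iter_cast]
      push_cast
      exact hi a ha
    · rw [zero_add]
      exact hcon
  by_cases hall : ∀ a ≤ j, y ≤ ((Tn^[a] n : ℕ) : ℝ)
  · have := hnv j hall
    have : (0 : ℝ) ≤ W := Nat.cast_nonneg _
    linarith
  · push Not at hall
    classical
    obtain ⟨i, hi⟩ : ∃ i : ℕ, i = Nat.find hall := ⟨_, rfl⟩
    have hi1 : i ≤ j ∧ ((Tn^[i] n : ℕ) : ℝ) < y := by rw [hi]; exact Nat.find_spec hall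
    have hi2 : ∀ a < i, y ≤ ((Tn^[a] n : ℕ) : ℝ) := by
      intro a ha
      have h1 : ¬ (a ≤ j ∧ ((Tn^[a] n : ℕ) : ℝ) < y) := Nat.find_min hall (by rw [← hi]; exact ha)
      by_contra h2
      push Not at h2
      exact h1 ⟨by omega, h2⟩
    -- the rest is short
    have hpos : 1 ≤ Tn^[i] n := Tn_iter_pos hn i
    obtain ⟨k, hk, hk1⟩ := hW ((Tn^[i] n : ℕ) : ℤ) (by exact_mod_cast hpos) (by push_cast; exact hi1.2)
      ⟨by exact_mod_cast hpos, t - i, by
        rw [Td_iter_cast, ← Function.iterate_add_apply, Nat.sub_add_cancel (by omega), ht.1]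
        rfl⟩
    rw [Td_iter_cast, ← Function.iterate_add_apply] at hk1
    have hk2 : Tn^[k + i] n = 1 := by
      have : ((Tn^[k + i] n : ℕ) : ℤ) = 1 := hk1
      exact_mod_cast this
    have hk3 : t ≤ k + i := by
      by_contra hcon
      push Not at hcon
      exact ht.2 _ hcon hk2
    obtain ⟨b, rfl⟩ : ∃ b, j = i + b := ⟨j - i, by omega⟩
    have h1 : |dn b (Tn^[i] n)| ≤ W := by
      have h2 := dv_abs b ((Tn^[i] n : ℕ) : ℤ)
      have h3 : (b : ℝ) ≤ W := by exact_mod_cast (show b ≤ W by omega)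
      exact h2.trans h3
    have h2 : |dn i n| ≤ D + 1 := by
      rcases i with _ | i
      · have : dn 0 n = 0 := dv_zero _
        rw [this, abs_zero]
        linarith
      · have h3 := hnv i (fun a ha => hi2 a (by omega))
        have h4 := dv_abs 1 ((Tn^[i] n : ℕ) : ℤ)
        rw [Nat.cast_one] at h4
        rw [dn_add]
        refine (abs_add_le _ _).trans ?_
        have h5 : |dn 1 (Tn^[i] n)| ≤ 1 := h4
        linarith
    rw [dn_add]
    refine (abs_add_le _ _).trans ?_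
    linarith

/-- **the maximal inequality in the basin** -/
theorem basin_max (η : ℝ) (hη : 0 < η) : ∃ K : ℝ, 0 < K ∧ ∀ᶠ N : ℕ in atTop,
    cnt (fun n => ∃ t, TST n t ∧ ∃ j ≤ t, K * √(Real.log N) < |dn j n|) N ≤ η * N := by
  obtain ⟨K, y, N₀, hK, hy, h⟩ := max_thm η hη
  obtain ⟨W, hW⟩ := before (y + 2)
  have hlim : Tendsto (fun N : ℕ => Real.log (N : ℝ)) atTop atTop := Real.tendsto_log_atTop.comp tendsto_natCast_atTop_atTop
  refine ⟨K + 1, by linarith, ?_⟩
  filter_upwards [eventually_ge_atTop N₀, hlim.eventually_ge_atTop (((W : ℝ) + 1) ^ 2)] with N hN hlog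
  refine le_trans (cnt_mono N ?_) (h N hN)
  rintro n hn _ ⟨t, ht, j, hj, hd⟩
  by_contra hV
  have hV2 : ((n : ℕ) : ℤ) ∉ Viol (y + 2) (K * √(Real.log N)) 0 := by
    rintro ⟨i, h1, h2⟩
    exact hV ⟨i, fun a ha => by linarith [h1 a ha], h2⟩
  have h1 := hW n t (K * √(Real.log N)) hn (by positivity) ht hV2 j hj
  have h2 : (W : ℝ) + 1 ≤ √(Real.log N) := Real.le_sqrt_of_sq_le hlog
  linarith

/-- **the upper half of the law of the iterated logarithm in the basin** -/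
theorem basin_up (f : ℕ → ℝ) (hf : Tendsto f atTop atTop) (δ : ℝ) (hδ : 0 < δ) (hδ1 : δ ≤ 1) :
    Dn (fun n => Bas n ∧ ¬ ∃ t, TST n t ∧ ∀ j : ℕ, f n ≤ j → j ≤ t → |dn j n| ≤ (1 + δ) * √(2 * j * Real.log (Real.log j))) 0 := by
  rw [zd_iff]
  intro η hη
  obtain ⟨j₀, hj₀, h1⟩ := up_first (η / 3) δ (by positivity) hδ hδ1
  obtain ⟨K, hK, h2⟩ := basin_max (η / 3) (by positivity)
  obtain ⟨n₀, hn₀⟩ := eventually_atTop.1 (hf.eventually_gt_atTop (j₀ : ℝ))
  have hlim : Tendsto (fun N : ℕ => Real.log (N : ℝ)) atTop atTop := Real.tendsto_log_atTop.comp tendsto_natCast_atTop_atTop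
  have hlim3 : Tendsto (fun N : ℕ => Real.log (Real.log (Real.log (N : ℝ)))) atTop atTop :=
    Real.tendsto_log_atTop.comp (Real.tendsto_log_atTop.comp hlim)
  filter_upwards [h2, eventually_ge_atTop 1, (tendsto_natCast_atTop_atTop (R := ℝ)).eventually_ge_atTop (n₀ / (η / 3)),
    hlim3.eventually_ge_atTop (K ^ 2), hlim.eventually_ge_atTop 4] with N g1 g2 g3 g4 g5
  have hs : cnt (fun n => Bas n ∧ ¬ ∃ t, TST n t ∧ ∀ j : ℕ, f n ≤ j → j ≤ t → |dn j n| ≤ (1 + δ) * √(2 * j * Real.log (Real.log j))) N ≤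
      cnt (fun n => (n : ℝ) ≤ n₀) N +
      cnt (fun n => (∃ j ≤ Nat.log 2 N, j₀ ≤ j ∧ (1 + δ) * √(2 * j * Real.log (Real.log j)) < |dn j n|) ∨
        ∃ t, TST n t ∧ ∃ j ≤ t, K * √(Real.log N) < |dn j n|) N := by
    apply cnt_or
    rintro n hn hnN ⟨hb, hno⟩
    rcases le_or_gt (n : ℝ) n₀ with hle | hgt
    · exact Or.inl hle
    right
    obtain ⟨t, ht⟩ := TST_of_Bas hb
    by_contra hcon
    push Not at hcon
    obtain ⟨c1, c2⟩ := hcon
    apply hno
    refine ⟨t, ht, fun j hfj hjt => ?_⟩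
    have hnn : n₀ ≤ n := by
      have : (n₀ : ℝ) < n := hgt
      exact_mod_cast this.le
    have hj0 : j₀ ≤ j := by
      have h3 := hn₀ n hnn
      have h4 : (j₀ : ℝ) < j := lt_of_lt_of_le h3 hfj
      exact_mod_cast h4.le
    rcases le_or_gt j (Nat.log 2 N) with hj1 | hj1
    · exact c1 j hj1 hj0
    · refine (c2 t ht j hjt).trans ?_
      -- `j ≥ log N`
      have hNj : N < 2 ^ j := lt_of_lt_of_le (Nat.lt_pow_succ_log_self (by norm_num) N) (Nat.pow_le_pow_right (by norm_num) hj1)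
      have hN0 : (0 : ℝ) < N := by exact_mod_cast g2
      have hlogj : Real.log N ≤ j := by
        have h3 : Real.log N ≤ Real.log ((2 : ℝ) ^ j) := Real.log_le_log hN0 (by exact_mod_cast hNj.le)
        rw [Real.log_pow] at h3
        have h4 := Real.log_two_lt_d9
        have h5 : (0 : ℝ) ≤ j := Nat.cast_nonneg _
        nlinarith
      have h6 : Real.log (Real.log (Real.log N)) ≤ Real.log (Real.log j) := by
        have h7 : 1 < Real.log (Real.log N) := by
          have h8 : Real.exp 1 < Real.log N := by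
            have := Real.exp_one_lt_d9
            linarith
          rw [Real.lt_log_iff_exp_lt (by linarith)]
          exact h8
        have h9 : Real.log (Real.log N) ≤ Real.log j := Real.log_le_log (by linarith) hlogj
        exact Real.log_le_log (by linarith) h9
      have h7 : K ^ 2 * Real.log N ≤ 2 * j * Real.log (Real.log j) := by
        have h8 : 0 ≤ K ^ 2 := sq_nonneg K
        calc K ^ 2 * Real.log N ≤ Real.log (Real.log j) * j := by
              apply mul_le_mul (g4.trans h6) hlogj (by linarith) (by linarith)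
          _ ≤ 2 * j * Real.log (Real.log j) := by
              have h9 : 0 ≤ Real.log (Real.log j) := by linarith
              have h10 : (0 : ℝ) ≤ j := Nat.cast_nonneg _
              nlinarith [mul_nonneg h10 h9]
      calc K * √(Real.log N) = √(K ^ 2 * Real.log N) := by rw [Real.sqrt_mul (sq_nonneg _), Real.sqrt_sq hK.le]
        _ ≤ √(2 * j * Real.log (Real.log j)) := Real.sqrt_le_sqrt h7
        _ ≤ (1 + δ) * √(2 * j * Real.log (Real.log j)) := by
            have := Real.sqrt_nonneg (2 * j * Real.log (Real.log j))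
            nlinarith
  have hs2 : cnt (fun n => (∃ j ≤ Nat.log 2 N, j₀ ≤ j ∧ (1 + δ) * √(2 * j * Real.log (Real.log j)) < |dn j n|) ∨
        ∃ t, TST n t ∧ ∃ j ≤ t, K * √(Real.log N) < |dn j n|) N ≤
      cnt (fun n => ∃ j ≤ Nat.log 2 N, j₀ ≤ j ∧ (1 + δ) * √(2 * j * Real.log (Real.log j)) < |dn j n|) N +
      cnt (fun n => ∃ t, TST n t ∧ ∃ j ≤ t, K * √(Real.log N) < |dn j n|) N :=
    cnt_or N fun n _ _ h => h
  have h3 := cnt_small (t := (n₀ : ℝ)) (Nat.cast_nonneg _) N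
  have h4 := h1 N g2
  rw [div_le_iff₀ (by positivity)] at g3
  linarith

/-- **the lower half of the law of the iterated logarithm** -/
theorem low_all (δ : ℝ) (hδ : 0 < δ) (hδ1 : δ ≤ 1) (σ : ℝ) (hσ : |σ| = 1) :
    Dn (fun n => ¬ ∃ j : ℕ, Real.log n ^ (1 - δ) ≤ j ∧ (j : ℝ) ≤ Real.log n / 2 ∧
      (1 - δ) * √(2 * j * Real.log (Real.log j)) ≤ σ * dn j n) 0 := by
  apply zd_of_large
  intro η hη hη1
  obtain ⟨k₀, hk₀, h⟩ := coin_low (η / 2) (δ / 2) (by positivity) (by positivity) (by linarith)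
  have hlim : Tendsto (fun N : ℕ => Real.log (N : ℝ)) atTop atTop := Real.tendsto_log_atTop.comp tendsto_natCast_atTop_atTop
  -- `(log N)^(1-δ) ≤ k^(1-δ/2)` for `k = ⌊log N / 4⌋`
  have hpow : ∀ᶠ L : ℝ in atTop, L ^ (1 - δ) ≤ (L / 8) ^ (1 - δ / 2) := by
    have h1 : Tendsto (fun L : ℝ => L ^ (δ / 2)) atTop atTop := tendsto_rpow_atTop (by positivity)
    filter_upwards [h1.eventually_ge_atTop ((8 : ℝ) ^ (1 - δ / 2)), eventually_gt_atTop 0] with L h2 h3
    rw [Real.div_rpow h3.le (by norm_num), le_div_iff₀ (by positivity)]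
    calc L ^ (1 - δ) * 8 ^ (1 - δ / 2) ≤ L ^ (1 - δ) * L ^ (δ / 2) := mul_le_mul_of_nonneg_left h2 (by positivity)
      _ = L ^ (1 - δ / 2) := by
          rw [← Real.rpow_add h3]
          congr 1
          ring
  filter_upwards [eventually_ge_atTop 1, hlim.eventually_ge_atTop (8 * (k₀ + 4)), hlim.eventually_ge_atTop (2 * Real.log (1 / η)),
    hlim.eventually hpow] with N g1 g2 g3 g4
  have hN0 : (0 : ℝ) < N := by exact_mod_cast g1
  obtain ⟨L, hL⟩ : ∃ L : ℝ, L = Real.log N := ⟨_, rfl⟩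
  rw [← hL] at g2 g3 g4
  have hk0r : (0 : ℝ) ≤ k₀ := Nat.cast_nonneg _
  obtain ⟨k, hk⟩ : ∃ k : ℕ, k = ⌊L / 4⌋₊ := ⟨_, rfl⟩
  have hk1 : (k : ℝ) ≤ L / 4 := by rw [hk]; exact Nat.floor_le (by linarith)
  have hk2 : L / 4 - 1 < k := by rw [hk]; exact Nat.sub_one_lt_floor _
  have hk3 : k₀ ≤ k := by
    have : (k₀ : ℝ) ≤ k := by linarith
    exact_mod_cast this
  have hk8 : L / 8 ≤ k := by linarith
  have hkN : 2 ^ k ≤ N := by
    have h1 : (2 : ℝ) ^ k ≤ N := by
      rw [← Real.exp_log hN0, ← hL]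
      have h2 : (2 : ℝ) ^ k = Real.exp (k * Real.log 2) := by
        rw [mul_comm, Real.exp_mul, Real.exp_log (by norm_num), Real.rpow_natCast]
      rw [h2]
      apply Real.exp_le_exp.2
      have h3 := Real.log_two_lt_d9
      have h4 : (0 : ℝ) ≤ k := Nat.cast_nonneg _
      nlinarith
    exact_mod_cast h1
  have h1 := cnt_word k (fun e => ¬ ∃ j ≤ k, (k : ℝ) ^ (1 - δ / 2) ≤ j ∧ (1 - δ / 2) * √(2 * j * Real.log (Real.log k)) ≤ σ * wk e j) N hkN
  have h2 := h k hk3 σ hσ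
  have hk3' : 3 ≤ k := hk₀.trans hk3
  have h3 : cnt (fun n => η * N < n ∧ ¬ ∃ j : ℕ, Real.log n ^ (1 - δ) ≤ j ∧ (j : ℝ) ≤ Real.log n / 2 ∧
      (1 - δ) * √(2 * j * Real.log (Real.log j)) ≤ σ * dn j n) N ≤
      cnt (fun n => ¬ ∃ j ≤ k, (k : ℝ) ^ (1 - δ / 2) ≤ j ∧ (1 - δ / 2) * √(2 * j * Real.log (Real.log k)) ≤ σ * wk (pt k (n : ℤ)) j) N := by
    apply cnt_mono
    rintro n hn hnN ⟨hlarge, hno⟩ ⟨j, hj, hj1, hj2⟩
    apply hno
    have hn0 : (0 : ℝ) < n := by exact_mod_cast hn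
    have hnL : Real.log n ≤ L := by rw [hL]; exact Real.log_le_log hn0 (by exact_mod_cast hnN)
    have hnL2 : L / 2 ≤ Real.log n := by
      have h4 : Real.log (η * N) ≤ Real.log n := Real.log_le_log (by positivity) hlarge.le
      rw [Real.log_mul hη.ne' hN0.ne', ← hL] at h4
      have h5 : Real.log (1 / η) = -Real.log η := by rw [one_div, Real.log_inv]
      rw [h5] at g3
      linarith
    have hn1 : 1 ≤ n := hn
    have hlogn0 : 0 ≤ Real.log n := Real.log_nonneg (by exact_mod_cast hn1)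
    refine ⟨j, ?_, ?_, ?_⟩
    · calc Real.log n ^ (1 - δ) ≤ L ^ (1 - δ) := Real.rpow_le_rpow hlogn0 hnL (by linarith)
        _ ≤ (L / 8) ^ (1 - δ / 2) := g4
        _ ≤ (k : ℝ) ^ (1 - δ / 2) := Real.rpow_le_rpow (by linarith) hk8 (by linarith)
        _ ≤ j := hj1
    · have : (j : ℝ) ≤ k := by exact_mod_cast hj
      linarith
    · have h4 : wk (pt k (n : ℤ)) j = dn j n := wk_pt k n j hj
      rw [← h4]
      refine le_trans ?_ hj2
      have hj1' : (1 : ℝ) ≤ j := by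
        have h5 : (1 : ℝ) ≤ (k : ℝ) ^ (1 - δ / 2) := Real.one_le_rpow (by exact_mod_cast (show 1 ≤ k by omega)) (by linarith)
        linarith
      have h6 : Real.log (Real.log j) ≤ Real.log (Real.log k) := by
        rcases hj1'.eq_or_lt with h7 | h7
        · rw [← h7, Real.log_one, Real.log_zero]
          apply Real.log_nonneg
          have h8 : (3 : ℝ) ≤ k := by exact_mod_cast hk3'
          have h9 := Real.exp_one_lt_d9
          rw [Real.le_log_iff_exp_le (by linarith)]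
          linarith
        · apply Real.log_le_log (Real.log_pos h7)
          exact Real.log_le_log (by linarith) (by exact_mod_cast hj)
      have h7 : √(2 * j * Real.log (Real.log j)) ≤ √(2 * j * Real.log (Real.log k)) :=
        Real.sqrt_le_sqrt (mul_le_mul_of_nonneg_left h6 (by positivity))
      have h8 := Real.sqrt_nonneg (2 * (j : ℝ) * Real.log (Real.log j))
      have h9 : 0 ≤ 1 - δ := by linarith
      calc (1 - δ) * √(2 * j * Real.log (Real.log j)) ≤ (1 - δ) * √(2 * j * Real.log (Real.log k)) := mul_le_mul_of_nonneg_left h7 h9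
        _ ≤ (1 - δ / 2) * √(2 * j * Real.log (Real.log k)) := by
            apply mul_le_mul_of_nonneg_right _ (Real.sqrt_nonneg _)
            linarith
  refine h3.trans (h1.trans ?_)
  have h4 : (0 : ℝ) < 2 ^ k := by positivity
  calc 2 * np k (fun e => ¬ ∃ j ≤ k, (k : ℝ) ^ (1 - δ / 2) ≤ j ∧ (1 - δ / 2) * √(2 * j * Real.log (Real.log k)) ≤ σ * wk e j) * (N / 2 ^ k)
      ≤ 2 * (η / 2 * 2 ^ k) * (N / 2 ^ k) := by
        apply mul_le_mul_of_nonneg_right _ (by positivity)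
        linarith
    _ = η * N := by field_simp

end Pool.Agent.H46.CO
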