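import Pool.Agent.H46.CO.Siz

/-!
# Final forms
-/

set_option autoImplicit false

namespace Pool.Agent.H46.CO

open Pool.Agent.H320R2.PD Pool.Agent.H499R2.ND Finset Filter Topology

/-- the number of odd terms among the first `j`, minus `j / 2` -/
noncomputable def dw (j n : ℕ) : ℝ := (((range j).filter fun i => Tn^[i] n % 2 = 1).card : ℝ) - j / 2

noncomputable def ll (j : ℕ) : ℝ := Real.sqrt (j * Real.log (Real.log j) / 2)

lemma dn_dw (j n : ℕ) : dn j n = 2 * dw j n := by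
  rw [dn_eq, dw]; ring

lemma abs_dw (j n : ℕ) : |dn j n| = 2 * |dw j n| := by
  rw [dn_dw, abs_mul, abs_of_nonneg (by norm_num : (0 : ℝ) ≤ 2)]

lemma ll_eq (j : ℕ) : √(2 * j * Real.log (Real.log j)) = 2 * ll j := by
  unfold ll
  rw [show 2 * (j : ℝ) * Real.log (Real.log j) = 2 ^ 2 * (j * Real.log (Real.log j) / 2) by ring,
    Real.sqrt_mul (by norm_num), Real.sqrt_sq (by norm_num)]

lemma ll_nonneg (j : ℕ) : 0 ≤ ll j := Real.sqrt_nonneg _

lemma ll_large (B : ℝ) : ∃ j₀ : ℕ, ∀ j : ℕ, j₀ ≤ j → B ≤ ll j := by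
  have hlim : Tendsto (fun j : ℕ => Real.log (Real.log (j : ℝ))) atTop atTop :=
    Real.tendsto_log_atTop.comp (Real.tendsto_log_atTop.comp tendsto_natCast_atTop_atTop)
  obtain ⟨a, ha⟩ := eventually_atTop.1 ((hlim.eventually_ge_atTop 2).and
    ((tendsto_natCast_atTop_atTop (R := ℝ)).eventually_ge_atTop (B ^ 2)))
  refine ⟨a, fun j hj => ?_⟩
  obtain ⟨h1, h2⟩ := ha j hj
  unfold ll
  apply Real.le_sqrt_of_sq_le
  have h3 : (0 : ℝ) ≤ j := Nat.cast_nonneg _
  nlinarith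

/-- (1) -/
theorem fin_one : ∃ C c : ℝ, 0 < C ∧ 0 < c ∧ ∀ K y : ℝ, 1 ≤ K → 2 ≤ y → ∀ᶠ N : ℕ in atTop,
    cnt (fun n => ∃ j : ℕ, (∀ i ≤ j, y ≤ ((Tn^[i] n : ℕ) : ℝ)) ∧ K * Real.sqrt (Real.log N) < |dw j n|) N ≤
      C * (Real.exp (-(c * K ^ 2)) + 1 / Real.log y) * N := by
  obtain ⟨C, c, hC, hc, h⟩ := max_gauss
  refine ⟨C, c, hC, hc, fun K y hK hy => ?_⟩
  filter_upwards [h K y hK hy] with N hN
  refine le_trans (cnt_mono N ?_) hN
  rintro n hn hnN ⟨j, h1, h2⟩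
  refine ⟨j, fun i hi => ?_, ?_⟩
  · have := h1 i hi
    rw [Td_iter_cast]
    exact_mod_cast this
  · rw [zero_add]
    have h3 : |dn j n| = 2 * |dw j n| := abs_dw j n
    have h4 : dn j n = dv j (n : ℤ) := rfl
    rw [← h4, h3]
    have h5 : 0 ≤ K * Real.sqrt (Real.log N) := by positivity
    linarith

/-- (2) -/
theorem fin_two : ∃ C c : ℝ, 0 < C ∧ 0 < c ∧ (∀ K y : ℝ, 1 ≤ K → 2 ≤ y → ∀ᶠ N : ℕ in atTop,
    cnt (fun n => ∃ j : ℕ, (∀ i ≤ j, y ≤ ((Tn^[i] n : ℕ) : ℝ)) ∧ K * Real.sqrt (Real.log N) < |dw j n|) N ≤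
      C * (Real.exp (-(c * K ^ 2)) + 1 / Real.log y) * N) ∧
    ∀ K η : ℝ, 1 ≤ K → 0 < η → ∀ᶠ N : ℕ in atTop,
    cnt (fun n => ∃ t, TST n t ∧ ∃ j ≤ t, K * √(Real.log N) < |dw j n| ∨ K * √(Real.log N) < |sd j n|) N ≤
      (C * Real.exp (-(c * K ^ 2)) + η) * N := by
  obtain ⟨C, c, hC, hc, h⟩ := max_gauss
  obtain ⟨C₁, c₁, hC₁, hc₁, h₁⟩ := fin_one
  obtain ⟨K₀, hK₀, hs⟩ := size_basin
  have hlim : Tendsto (fun N : ℕ => Real.log (N : ℝ)) atTop atTop := Real.tendsto_log_atTop.comp tendsto_natCast_atTop_atTop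
  have h3 : 0 < Real.log 3 := Real.log_pos (by norm_num)
  have h3' : Real.log 3 ≤ 3 / 2 := by
    have h5 : Real.log 3 ≤ Real.log 4 := Real.log_le_log (by norm_num) (by norm_num)
    have h6 : Real.log 4 = 2 * Real.log 2 := by
      rw [show (4 : ℝ) = 2 ^ 2 by norm_num, Real.log_pow]; push_cast; ring
    have := Real.log_two_lt_d9
    linarith
  obtain ⟨c', hc'⟩ : ∃ c' : ℝ, c' = min (c / 4) c₁ := ⟨_, rfl⟩
  have hc'0 : 0 < c' := by rw [hc']; exact lt_min (by positivity) hc₁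
  have hc'1 : c' ≤ c / 4 := by rw [hc']; exact min_le_left _ _
  have hc'2 : c' ≤ c₁ := by rw [hc']; exact min_le_right _ _
  obtain ⟨C', hC'⟩ : ∃ C' : ℝ, C' = C + C₁ + Real.exp (c' * 4) := ⟨_, rfl⟩
  have hC'0 : 0 < C' := by rw [hC']; positivity
  refine ⟨C', c', hC'0, hc'0, ?_, ?_⟩
  · intro K y hK hy
    filter_upwards [h₁ K y hK hy] with N hN
    refine hN.trans ?_
    have hly : 0 < Real.log y := Real.log_pos (by linarith)
    have h5 : Real.exp (-(c₁ * K ^ 2)) ≤ Real.exp (-(c' * K ^ 2)) := by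
      apply Real.exp_le_exp.2
      apply neg_le_neg
      exact mul_le_mul_of_nonneg_right hc'2 (sq_nonneg _)
    have h6 : C₁ ≤ C' := by rw [hC']; have := Real.exp_pos (c' * 4); linarith
    gcongr
  · intro K η hK hη
    rcases lt_or_ge K 2 with hK2 | hK2
    · refine Eventually.of_forall fun N => (cnt_le _ N).trans ?_
      have h5 : 1 ≤ C' * Real.exp (-(c' * K ^ 2)) := by
        have h6 : Real.exp (c' * 4) * Real.exp (-(c' * K ^ 2)) ≤ C' * Real.exp (-(c' * K ^ 2)) := by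
          apply mul_le_mul_of_nonneg_right _ (Real.exp_pos _).le
          rw [hC']; linarith
        have h7 : 1 ≤ Real.exp (c' * 4) * Real.exp (-(c' * K ^ 2)) := by
          rw [← Real.exp_add]
          apply Real.one_le_exp
          have : K ^ 2 ≤ 4 := by nlinarith
          nlinarith
        linarith
      have h0 : (0 : ℝ) ≤ N := Nat.cast_nonneg _
      nlinarith
    · obtain ⟨y, hy⟩ : ∃ y : ℝ, y = Real.exp (max 1 (C / η)) := ⟨_, rfl⟩
      have hy2 : 2 ≤ y := by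
        have h5 := Real.add_one_le_exp (max 1 (C / η))
        have h6 := le_max_left 1 (C / η)
        rw [hy]; linarith
      have hly : C * (1 / Real.log y) ≤ η := by
        rw [hy, Real.log_exp]
        have h6 := le_max_right 1 (C / η)
        have h7 := le_max_left 1 (C / η)
        rw [mul_one_div, div_le_iff₀ (by linarith)]
        rw [div_le_iff₀ hη] at h6
        linarith
      obtain ⟨W, hW⟩ := before y
      filter_upwards [h (K / 2) y (by linarith) hy2, hlim.eventually_ge_atTop ((W + 1 : ℝ) ^ 2),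
        hlim.eventually_ge_atTop ((4 * K₀) ^ 2)] with N hN hl1 hl2
      have hs1 : (W : ℝ) + 1 ≤ √(Real.log N) := Real.le_sqrt_of_sq_le hl1
      have hs2 : 4 * K₀ ≤ √(Real.log N) := Real.le_sqrt_of_sq_le hl2
      have hcnt : cnt (fun n => ∃ t, TST n t ∧ ∃ j ≤ t, K * √(Real.log N) < |dw j n| ∨ K * √(Real.log N) < |sd j n|) N ≤
          cnt (fun n => (n : ℤ) ∈ Viol y (K / 2 * Real.sqrt (Real.log N)) 0) N := by
        apply cnt_mono
        rintro n hn hnN ⟨t, ht, j, hj, hd⟩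
        by_contra hV
        have h1 := hW n t (K / 2 * √(Real.log N)) hn (by positivity) ht hV j hj
        have h2 := hs n t j hn ht hj
        have h4 := abs_dw j n
        rcases hd with hd | hd
        · nlinarith
        · have h6 : |sd j n| ≤ Real.log 3 / 2 * |dn j n| + K₀ := by
            have h5 : sd j n = Real.log 3 / 2 * dn j n + (sd j n - Real.log 3 / 2 * dn j n) := by ring
            rw [h5]
            refine (abs_add_le _ _).trans ?_
            rw [abs_mul, abs_of_pos (by positivity : 0 < Real.log 3 / 2)]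
            linarith
          have h7 : Real.log 3 / 2 * |dn j n| ≤ 3 / 4 * (K / 2 * √(Real.log N) + W + 1) := by
            apply mul_le_mul (by linarith) h1 (abs_nonneg _) (by norm_num)
          nlinarith
      refine (hcnt.trans hN).trans ?_
      have h5 : Real.exp (-(c * (K / 2) ^ 2)) ≤ Real.exp (-(c' * K ^ 2)) := by
        apply Real.exp_le_exp.2
        apply neg_le_neg
        nlinarith [sq_nonneg K]
      have h6 : C * Real.exp (-(c * (K / 2) ^ 2)) ≤ C' * Real.exp (-(c' * K ^ 2)) := by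
        apply mul_le_mul _ h5 (Real.exp_pos _).le hC'0.le
        rw [hC']; have := Real.exp_pos (c' * 4); linarith
      apply mul_le_mul_of_nonneg_right _ (Nat.cast_nonneg _)
      rw [mul_add]
      linarith

/-- (3) -/
theorem fin_three {δ : ℝ} (hδ : Dn Bas δ) (ε : ℝ) (hε : 0 < ε) (f : ℕ → ℝ) (hf : Tendsto f atTop atTop) :
    Dn (fun n => ∃ t, TST n t ∧ ∀ j : ℕ, f n ≤ j → j ≤ t → |dw j n| ≤ (1 + ε) * ll j ∧ |sd j n| ≤ (1 + ε) * (Real.log 3 * ll j)) δ := by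
  refine dn_bas hδ (fun n _ ⟨t, ht, _⟩ => ⟨t, ht.1⟩) ?_
  obtain ⟨K₀, hK₀, hs⟩ := size_basin
  have h3 : 0 < Real.log 3 := Real.log_pos (by norm_num)
  obtain ⟨ε', hε'⟩ : ∃ ε' : ℝ, ε' = min (ε / 2) 1 := ⟨_, rfl⟩
  have hε'0 : 0 < ε' := by rw [hε']; exact lt_min (by positivity) one_pos
  have hε'1 : ε' ≤ 1 := by rw [hε']; exact min_le_right _ _
  have hε'2 : ε' ≤ ε / 2 := by rw [hε']; exact min_le_left _ _
  obtain ⟨j₀, hj₀⟩ := ll_large (K₀ / (ε / 2 * Real.log 3))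
  have hmax : Tendsto (fun n => max (f n) (j₀ : ℝ)) atTop atTop := tendsto_atTop_mono (fun n => le_max_left _ _) hf
  obtain ⟨n₀, hn₀⟩ := eventually_atTop.1 (hf.eventually_ge_atTop (j₀ : ℝ))
  refine zd_or (Q := fun n => n ≤ n₀) ?_ (basin_up f hf ε' hε'0 hε'1) ?_
  · rw [zd_iff]
    intro η hη
    filter_upwards [(tendsto_natCast_atTop_atTop (R := ℝ)).eventually_ge_atTop (n₀ / η)] with N hN
    rw [div_le_iff₀ hη] at hN
    have h1 := cnt_small (t := (n₀ : ℝ)) (Nat.cast_nonneg _) N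
    have h2 : cnt (fun n => n ≤ n₀) N ≤ cnt (fun n => (n : ℝ) ≤ n₀) N := cnt_mono N fun n _ _ h => by exact_mod_cast h
    linarith
  · rintro n hn ⟨hb, hno⟩
    rcases le_or_gt n n₀ with hle | hgt
    · exact Or.inl hle
    right
    refine ⟨hb, ?_⟩
    rintro ⟨t, ht, h⟩
    apply hno
    refine ⟨t, ht, fun j hj hjt => ?_⟩
    have hdn := h j hj hjt
    rw [ll_eq, abs_dw] at hdn
    have hl0 := ll_nonneg j
    have h4 : |dw j n| ≤ (1 + ε') * ll j := by linarith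
    refine ⟨h4.trans (mul_le_mul_of_nonneg_right (by linarith) hl0), ?_⟩
    have hjj : j₀ ≤ j := by
      have := (hn₀ n hgt.le).trans hj
      exact_mod_cast this
    have h5 := hj₀ j hjj
    rw [div_le_iff₀ (by positivity)] at h5
    have h1 := hs n t j hn ht hjt
    have h6 : |sd j n| ≤ Real.log 3 / 2 * |dn j n| + K₀ := by
      have h5 : sd j n = Real.log 3 / 2 * dn j n + (sd j n - Real.log 3 / 2 * dn j n) := by ring
      rw [h5]
      refine (abs_add_le _ _).trans ?_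
      rw [abs_mul, abs_of_pos (by positivity : 0 < Real.log 3 / 2)]
      linarith
    rw [abs_dw] at h6
    have h7 : Real.log 3 * |dw j n| ≤ Real.log 3 * ((1 + ε') * ll j) := mul_le_mul_of_nonneg_left h4 h3.le
    have h8 : Real.log 3 * ((1 + ε') * ll j) ≤ Real.log 3 * ((1 + ε / 2) * ll j) := by
      apply mul_le_mul_of_nonneg_left _ h3.le
      exact mul_le_mul_of_nonneg_right (by linarith) hl0
    linarith

/-- (4) one sign -/
theorem fin_low (ε : ℝ) (hε : 0 < ε) (hε1 : ε ≤ 1) (σ : ℝ) (hσ : |σ| = 1) :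
    Dn (fun n => ¬ ∃ j : ℕ, Real.log n ^ (1 - ε) ≤ j ∧ (j : ℝ) ≤ Real.log n / 2 ∧
      (1 - ε) * ll j ≤ σ * dw j n ∧ (1 - ε) * (Real.log 3 * ll j) ≤ σ * sd j n) 0 := by
  obtain ⟨n₁, hs⟩ := size_short
  have h3 : 0 < Real.log 3 := Real.log_pos (by norm_num)
  obtain ⟨ε', hε'⟩ : ∃ ε' : ℝ, ε' = ε / 2 := ⟨_, rfl⟩
  have hε'0 : 0 < ε' := by rw [hε']; positivity
  obtain ⟨j₀, hj₀⟩ := ll_large (1 / (ε' * Real.log 3))
  have hlim : Tendsto (fun N : ℕ => Real.log (N : ℝ)) atTop atTop := Real.tendsto_log_atTop.comp tendsto_natCast_atTop_atTop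
  have hpow : Tendsto (fun N : ℕ => Real.log (N : ℝ) ^ (1 - ε')) atTop atTop := (tendsto_rpow_atTop (by linarith)).comp hlim
  obtain ⟨n₀, hn₀⟩ := eventually_atTop.1 ((hpow.eventually_ge_atTop (j₀ : ℝ)).and
    ((hlim.eventually_ge_atTop 1).and (eventually_ge_atTop n₁)))
  refine zd_or (Q := fun n => n ≤ n₀) ?_ (low_all ε' hε'0 (by linarith) σ hσ) ?_
  · rw [zd_iff]
    intro η hη
    filter_upwards [(tendsto_natCast_atTop_atTop (R := ℝ)).eventually_ge_atTop (n₀ / η)] with N hN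
    rw [div_le_iff₀ hη] at hN
    have h1 := cnt_small (t := (n₀ : ℝ)) (Nat.cast_nonneg _) N
    have h2 : cnt (fun n => n ≤ n₀) N ≤ cnt (fun n => (n : ℝ) ≤ n₀) N := cnt_mono N fun n _ _ h => by exact_mod_cast h
    linarith
  · rintro n hn hno
    rcases le_or_gt n n₀ with hle | hgt
    · exact Or.inl hle
    right
    rintro ⟨j, hj1, hj2, hj3⟩
    apply hno
    obtain ⟨g1, g2, g3⟩ := hn₀ n hgt.le
    have hjj : j₀ ≤ j := by
      have := g1.trans hj1
      exact_mod_cast this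
    have h5 := hj₀ j hjj
    rw [div_le_iff₀ (by positivity)] at h5
    have hl0 := ll_nonneg j
    rw [ll_eq, dn_dw] at hj3
    have h4 : (1 - ε') * ll j ≤ σ * dw j n := by linarith
    refine ⟨j, ?_, hj2, ?_, ?_⟩
    · exact (Real.rpow_le_rpow_of_exponent_le g2 (by linarith)).trans hj1
    · exact (mul_le_mul_of_nonneg_right (by linarith) hl0).trans h4
    · have h1 := hs n j g3 hj2
      have h6 : |σ * (sd j n - Real.log 3 / 2 * dn j n)| ≤ 1 := by rw [abs_mul, hσ, one_mul]; exact h1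
      rw [abs_le] at h6
      rw [dn_dw] at h6
      have h7 : Real.log 3 * ((1 - ε') * ll j) ≤ Real.log 3 * (σ * dw j n) := mul_le_mul_of_nonneg_left h4 h3.le
      have h8 : ε = ε' + ε' := by rw [hε']; ring
      rw [h8]
      nlinarith [h6.1, h7, h5]

/-- (4) -/
theorem fin_four (ε : ℝ) (hε : 0 < ε) (hε1 : ε ≤ 1) :
    Dn (fun n => (∃ j : ℕ, Real.log n ^ (1 - ε) ≤ j ∧ (j : ℝ) ≤ Real.log n / 2 ∧
      (1 - ε) * ll j ≤ dw j n ∧ (1 - ε) * (Real.log 3 * ll j) ≤ sd j n) ∧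
      ∃ j : ℕ, Real.log n ^ (1 - ε) ≤ j ∧ (j : ℝ) ≤ Real.log n / 2 ∧
      dw j n ≤ -((1 - ε) * ll j) ∧ sd j n ≤ -((1 - ε) * (Real.log 3 * ll j))) 1 := by
  have hone : Dn (fun _ => True) 1 := by
    unfold Dn
    refine (tendsto_const_nhds (x := (1 : ℝ))).congr' ?_
    filter_upwards [eventually_gt_atTop 0] with N hN
    have hN0 : (0 : ℝ) < N := by exact_mod_cast hN
    classical
    rw [cnt_eq, filter_true_of_mem (fun _ _ => trivial), Nat.card_Icc, Nat.add_sub_cancel, div_self hN0.ne']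
  have h1 := fin_low ε hε hε1 1 (by simp)
  have h2 := fin_low ε hε hε1 (-1) (by simp)
  refine dn_congr hone (zd_or h1 h2 (P := fun n => (¬ ∃ j : ℕ, Real.log n ^ (1 - ε) ≤ j ∧ (j : ℝ) ≤ Real.log n / 2 ∧
      (1 - ε) * ll j ≤ 1 * dw j n ∧ (1 - ε) * (Real.log 3 * ll j) ≤ 1 * sd j n) ∨
      (¬ ∃ j : ℕ, Real.log n ^ (1 - ε) ≤ j ∧ (j : ℝ) ≤ Real.log n / 2 ∧
      (1 - ε) * ll j ≤ -1 * dw j n ∧ (1 - ε) * (Real.log 3 * ll j) ≤ -1 * sd j n)) fun n _ h => h) ?_
  intro n hn hE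
  push Not at hE
  obtain ⟨⟨j, a1, a2, a3, a4⟩, j', b1, b2, b3, b4⟩ := hE
  refine ⟨fun _ => ⟨⟨j, a1, a2, by linarith, by linarith⟩, j', b1, b2, by linarith, by linarith⟩, fun _ => trivial⟩

end Pool.Agent.H46.CO
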