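import Pool.Agent.H46.CO.Sc

/-!
# The maximal inequality for trajectories
-/

set_option autoImplicit false

namespace Pool.Agent.H46.CO

open Pool.Agent.H320R2.PD Pool.Agent.H499R2.ND Finset Filter

lemma viol_two {y D τ : ℝ} (hτ : |τ| ≤ D) {x : ℤ} (h : 2 * x ∈ Viol y D τ) : x ∈ Viol y D (τ - 1) := by
  obtain ⟨j, hy, hD⟩ := h
  rcases j with _ | j
  · rw [dv_zero, add_zero] at hD
    linarith
  refine ⟨j, ?_, ?_⟩
  · intro i hi
    have h1 := hy (i + 1) (by omega)
    rwa [Function.iterate_succ_apply, Td_two] at h1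
  · rw [add_comm j 1, dv_add, dv_one, if_neg (by omega), Function.iterate_one, Td_two] at hD
    rw [show τ - 1 + dv j x = τ + (-1 + dv j x) by ring]
    exact hD

/-- from the scales to the interval -/
lemma viol_count {y D δ R X0 : ℝ} (hδ : 0 ≤ δ) (hD0 : 0 ≤ R)
    (h : ∀ τ A : ℝ, 0 < A → A ≤ X0 → |τ| + R ≤ D → PB (Viol y D τ) A 0 δ) :
    ∀ (E : ℕ) (τ X : ℝ), 0 ≤ X → X ≤ X0 → |τ| + E + R ≤ D → ((pos (Viol y D τ) X).card : ℝ) ≤ δ * X + X / 2 ^ E := by
  intro E
  induction E with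
  | zero =>
    intro τ X hX _ _
    have h1 := pos_card_le (Viol y D τ) hX
    have h2 : 0 ≤ δ * X := by positivity
    rw [pow_zero, div_one]
    linarith
  | succ E ih =>
    intro τ X hX hX0 hτ
    classical
    push_cast at hτ
    have hE : (0 : ℝ) ≤ E := Nat.cast_nonneg _
    have hsub : pos (Viol y D τ) X ⊆ cls (Viol y D τ) 0 X 0 1 0 ∪ (pos (Viol y D (τ - 1)) (X / 2)).image (fun x => 2 * x) := by
      intro x hx
      rw [mem_pos] at hx
      rw [mem_union, mem_cls, mem_image]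
      rcases Int.even_or_odd x with he | ho
      · right
        obtain ⟨t, ht⟩ := he
        refine ⟨t, ?_, by omega⟩
        rw [mem_pos]
        have hxt : (x : ℝ) = 2 * t := by rw [ht]; push_cast; ring
        refine ⟨⟨by omega, by linarith [hx.1.2]⟩, viol_two (by linarith) ?_⟩
        rw [show 2 * t = x by omega]; exact hx.2
      · left
        refine ⟨⟨?_, hx.1.2⟩, ho, hx.2, by simp⟩
        have : (1 : ℝ) ≤ x := by exact_mod_cast hx.1.1
        linarith
    have h1 : ((pos (Viol y D τ) X).card : ℝ) ≤ (cls (Viol y D τ) 0 X 0 1 0).card + (pos (Viol y D (τ - 1)) (X / 2)).card := by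
      have e1 := (card_le_card hsub).trans (card_union_le _ _)
      have e2 : ((pos (Viol y D (τ - 1)) (X / 2)).image (fun x => 2 * x)).card ≤ (pos (Viol y D (τ - 1)) (X / 2)).card := card_image_le
      exact_mod_cast e1.trans (Nat.add_le_add_left e2 _)
    obtain ⟨n', hn'⟩ := pow_unbounded_of_one_lt X (by norm_num : (1 : ℝ) < 2)
    have h3 := odd_countX hδ (X0 := X) (fun A hA hAX => h τ A hA (hAX.trans hX0) (by linarith)) n' X hX le_rfl hn'.le
    have h5 : |τ - 1| ≤ |τ| + 1 := by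
      have := abs_sub τ 1
      rw [abs_one] at this
      exact this
    have h4 := ih (τ - 1) (X / 2) (by linarith) (by linarith) (by linarith)
    have h6 : X / 2 / 2 ^ E = X / 2 ^ (E + 1) := by rw [pow_succ]; field_simp
    rw [h6] at h4
    linarith

/-- **the maximal inequality for trajectories** -/
theorem max_thm (η : ℝ) (hη : 0 < η) : ∃ (K y : ℝ) (N₀ : ℕ), 0 < K ∧ 0 < y ∧ ∀ N : ℕ, N₀ ≤ N →
    cnt (fun n => (n : ℤ) ∈ Viol y (K * Real.sqrt (Real.log N)) 0) N ≤ η * N := by
  obtain ⟨C, hC, hall⟩ := all_scalesV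
  obtain ⟨K, hK4, hKη⟩ := TG.exK hC (show 0 < η / 4 by positivity)
  obtain ⟨y, hy, hy1000, hyη⟩ := TG.exy hC (show 0 < η / 4 by positivity)
  obtain ⟨E, hE⟩ := exists_nat_gt (4 / η)
  have hE2 : 1 / 2 ^ E ≤ η / 4 := by
    have h1 : (E : ℝ) ≤ 2 ^ E := by exact_mod_cast Nat.lt_two_pow_self.le
    rw [div_le_iff₀ (by positivity)]
    rw [div_lt_iff₀ hη] at hE
    nlinarith
  have hlim : Tendsto (fun N : ℕ => Real.log (N : ℝ)) atTop atTop := Real.tendsto_log_atTop.comp tendsto_natCast_atTop_atTop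
  obtain ⟨N₀, hN₀⟩ := eventually_atTop.1 (hlim.eventually_ge_atTop ((E : ℝ) ^ 2 + 1))
  refine ⟨322 * K, y, N₀ + 2, by linarith, hy, ?_⟩
  intro N hN
  have hlogN : (E : ℝ) ^ 2 + 1 ≤ Real.log N := hN₀ N (by omega)
  have hN2 : (2 : ℝ) ≤ N := by exact_mod_cast (show 2 ≤ N by omega)
  have hL0 : Real.log ((N : ℝ) + 1) ≤ 2 * Real.log N := by
    have h1 : Real.log ((N : ℝ) + 1) ≤ Real.log ((N : ℝ) ^ 2) := Real.log_le_log (by linarith) (by nlinarith)
    rw [Real.log_pow] at h1
    push_cast at h1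
    exact h1
  set L0 := Real.log ((N : ℝ) + 1) with hL0d
  set s := Real.sqrt (Real.log N) with hs
  have hs0 : 0 ≤ s := Real.sqrt_nonneg _
  have hsE : (E : ℝ) ≤ s := Real.le_sqrt_of_sq_le (by linarith)
  have hsL : Real.sqrt L0 ≤ 2 * s := by
    rw [hs, show (2 : ℝ) = Real.sqrt 4 by rw [show (4 : ℝ) = 2 ^ 2 by norm_num, Real.sqrt_sq (by norm_num)],
      ← Real.sqrt_mul (by norm_num)]
    apply Real.sqrt_le_sqrt
    linarith [sq_nonneg (E : ℝ)]
  have hL00 : 0 ≤ L0 := Real.log_nonneg (by linarith)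
  have hPB : ∀ τ A : ℝ, 0 < A → A ≤ (N : ℝ) + 1 → |τ| + 160 * K * Real.sqrt L0 ≤ 322 * K * s →
      PB (Viol y (322 * K * s) τ) A 0 (η / 4) := by
    intro τ A hA hAX hτ
    rcases le_or_gt A (y / 2) with hc | hc
    · refine PB_mono hA (show (0 : ℝ) ≤ η / 4 by positivity) ?_
      intro u v _
      have hemp : cls (Viol y (322 * K * s) τ) A (2 * A) 0 u v = ∅ := by
        rw [Finset.eq_empty_iff_forall_notMem]
        intro x hx
        rw [mem_cls] at hx
        obtain ⟨⟨_, h6⟩, _, ⟨j, h7, _⟩, _⟩ := hx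
        have h8 := h7 0 (Nat.zero_le _)
        rw [Function.iterate_zero, id] at h8
        linarith
      rw [hemp]
      simp
    · have hlA : Real.log (y / 2) < Real.log A := Real.log_lt_log (by positivity) hc
      have hlAL : Real.log A ≤ L0 := Real.log_le_log hA hAX
      have h1 : Real.sqrt (Real.sqrt (L0 * Real.log A)) ≤ Real.sqrt L0 := by
        apply Real.sqrt_le_sqrt
        calc Real.sqrt (L0 * Real.log A) ≤ Real.sqrt (L0 * L0) :=
              Real.sqrt_le_sqrt (mul_le_mul_of_nonneg_left hlAL hL00)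
          _ = L0 := Real.sqrt_mul_self hL00
      have h2 := hall K L0 y (322 * K * s) hK4 hy hy1000 τ A hc (by
        have h3 := mul_le_mul_of_nonneg_left h1 (show 0 ≤ 160 * K by linarith)
        linarith) hlAL 0 (by
        have : 0 ≤ Real.log A := by linarith
        simpa using this)
      refine PB_mono hA ?_ h2
      have h4 : Real.log A / L0 ≤ 1 := by
        rw [div_le_one (by linarith)]
        exact hlAL
      have h5 : 0 ≤ C * Real.exp (-(K ^ 2 / 32)) := by positivity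
      have h6 : C * Real.exp (-(K ^ 2 / 32)) * (Real.log A / L0) ≤ C * Real.exp (-(K ^ 2 / 32)) * 1 :=
        mul_le_mul_of_nonneg_left h4 h5
      linarith
  have h7 := viol_count (y := y) (D := 322 * K * s) (δ := η / 4) (R := 160 * K * Real.sqrt L0) (X0 := (N : ℝ) + 1)
    (by positivity) (by positivity) hPB E 0 ((N : ℝ) + 1) (by linarith) le_rfl (by
      rw [abs_zero]
      have h8 := mul_le_mul_of_nonneg_left hsL (show 0 ≤ 160 * K by linarith)
      nlinarith)
  have h9 : cnt (fun n => (n : ℤ) ∈ Viol y (322 * K * s) 0) N ≤ ((pos (Viol y (322 * K * s) 0) ((N : ℝ) + 1)).card : ℝ) := by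
    classical
    rw [cnt_eq]
    have h10 : ((Icc 1 N).filter fun n : ℕ => (n : ℤ) ∈ Viol y (322 * K * s) 0).image (fun n : ℕ => (n : ℤ)) ⊆
        pos (Viol y (322 * K * s) 0) ((N : ℝ) + 1) := by
      intro x hx
      rw [mem_image] at hx
      obtain ⟨n, hn, rfl⟩ := hx
      rw [mem_filter, mem_Icc] at hn
      rw [mem_pos]
      refine ⟨⟨by exact_mod_cast hn.1.1, ?_⟩, hn.2⟩
      push_cast
      have : (n : ℝ) ≤ N := by exact_mod_cast hn.1.2
      linarith
    have h11 := card_le_card h10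
    rw [card_image_of_injective _ (fun a b h => by exact_mod_cast h)] at h11
    exact_mod_cast h11
  have h12 : ((N : ℝ) + 1) / 2 ^ E ≤ η / 4 * (N + 1) := by
    rw [div_eq_mul_one_div, mul_comm]
    exact mul_le_mul_of_nonneg_right hE2 (by linarith)
  have h13 : η / 4 * ((N : ℝ) + 1) + η / 4 * (N + 1) ≤ η * N := by nlinarith
  linarith

end Pool.Agent.H46.CO
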