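import Pool.Agent.H46.CO.Bas

/-!
# The maximal inequality with a Gaussian bound
-/

set_option autoImplicit false

namespace Pool.Agent.H46.CO

open Pool.Agent.H320R2.PD Pool.Agent.H499R2.ND Finset Filter Topology

/-- **the maximal inequality for trajectories, with a Gaussian bound** -/
theorem max_gauss : ∃ C c : ℝ, 0 < C ∧ 0 < c ∧ ∀ K y : ℝ, 1 ≤ K → 2 ≤ y → ∀ᶠ N : ℕ in atTop,
    cnt (fun n => (n : ℤ) ∈ Viol y (K * Real.sqrt (Real.log N)) 0) N ≤ C * (Real.exp (-(c * K ^ 2)) + 1 / Real.log y) * N := by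
  obtain ⟨C, hC, hall⟩ := all_scalesV
  obtain ⟨c, hc⟩ : ∃ c : ℝ, c = 1 / (32 * 322 ^ 2) := ⟨_, rfl⟩
  have hc0 : 0 < c := by rw [hc]; positivity
  refine ⟨4 * C + 4 + 1002 + Real.exp (c * 1288 ^ 2), c, by positivity, hc0, ?_⟩
  intro K y hK1 hy2
  have hlogy : 0 < Real.log y := Real.log_pos (by linarith)
  obtain ⟨C', hC'⟩ : ∃ C' : ℝ, C' = 4 * C + 4 + 1002 + Real.exp (c * 1288 ^ 2) := ⟨_, rfl⟩
  rw [← hC']
  have hCp : 0 < C' := by rw [hC']; positivity
  have htriv : 1 ≤ C' * (Real.exp (-(c * K ^ 2)) + 1 / Real.log y) → ∀ᶠ N : ℕ in atTop,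
      cnt (fun n => (n : ℤ) ∈ Viol y (K * Real.sqrt (Real.log N)) 0) N ≤ C' * (Real.exp (-(c * K ^ 2)) + 1 / Real.log y) * N := by
    intro h
    refine Eventually.of_forall fun N => (cnt_le _ N).trans ?_
    have : (0 : ℝ) ≤ N := Nat.cast_nonneg _
    nlinarith
  rcases lt_or_ge K 1288 with hKs | hKb
  · apply htriv
    have h1 : Real.exp (-(c * 1288 ^ 2)) ≤ Real.exp (-(c * K ^ 2)) := by
      apply Real.exp_le_exp.2
      apply neg_le_neg
      apply mul_le_mul_of_nonneg_left _ hc0.le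
      nlinarith
    have h2 : Real.exp (c * 1288 ^ 2) * Real.exp (-(c * 1288 ^ 2)) = 1 := by
      rw [← Real.exp_add]
      simp
    have h3 : Real.exp (c * 1288 ^ 2) ≤ C' := by rw [hC']; linarith
    calc (1 : ℝ) = Real.exp (c * 1288 ^ 2) * Real.exp (-(c * 1288 ^ 2)) := h2.symm
      _ ≤ C' * (Real.exp (-(c * K ^ 2)) + 1 / Real.log y) := by
          apply mul_le_mul h3 _ (by positivity) hCp.le
          have : 0 ≤ 1 / Real.log y := by positivity
          exact h1.trans (le_add_of_nonneg_right this)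
  rcases lt_or_ge (Real.log y) 1001 with hys | hyb
  · apply htriv
    have h1 : 1 / 1001 ≤ 1 / Real.log y := one_div_le_one_div_of_le hlogy hys.le
    have h2 : 1002 ≤ C' := by rw [hC']; linarith [Real.exp_pos (c * 1288 ^ 2)]
    calc (1 : ℝ) ≤ 1002 * (1 / 1001) := by norm_num
      _ ≤ C' * (Real.exp (-(c * K ^ 2)) + 1 / Real.log y) := by
          apply mul_le_mul h2 _ (by positivity) hCp.le
          have := Real.exp_pos (-(c * K ^ 2))
          linarith
  -- the main case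
  obtain ⟨K', hK'⟩ : ∃ K' : ℝ, K' = K / 322 := ⟨_, rfl⟩
  have hK4 : 4 ≤ K' := by rw [hK', le_div_iff₀ (by norm_num)]; linarith
  have hKK : K = 322 * K' := by rw [hK']; ring
  have hexp : Real.exp (-(K' ^ 2 / 32)) = Real.exp (-(c * K ^ 2)) := by
    congr 2
    rw [hK', hc]
    ring
  have hy : 0 < y := by linarith
  have hlog2 : Real.log (y / 2) = Real.log y - Real.log 2 := Real.log_div (by linarith) (by norm_num)
  have hl2 := Real.log_two_lt_d9
  have hl2' := Real.log_two_gt_d9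
  have hy1000 : 1000 ≤ Real.log (y / 2) := by rw [hlog2]; linarith
  have hyC : C / Real.log (y / 2) ≤ 2 * C / Real.log y := by
    rw [div_le_div_iff₀ (by linarith) hlogy, hlog2]
    nlinarith
  obtain ⟨η, hη⟩ : ∃ η : ℝ, η = Real.exp (-(K' ^ 2 / 32)) := ⟨_, rfl⟩
  have hη0 : 0 < η := by rw [hη]; exact Real.exp_pos _
  obtain ⟨E, hE⟩ := exists_nat_gt (1 / η)
  have hE2 : 1 / 2 ^ E ≤ η := by
    have h1 : (E : ℝ) ≤ 2 ^ E := by exact_mod_cast Nat.lt_two_pow_self.le
    rw [div_le_iff₀ (by positivity)]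
    rw [div_lt_iff₀ hη0] at hE
    nlinarith
  have hlim : Tendsto (fun N : ℕ => Real.log (N : ℝ)) atTop atTop := Real.tendsto_log_atTop.comp tendsto_natCast_atTop_atTop
  filter_upwards [hlim.eventually_ge_atTop ((E : ℝ) ^ 2 + 1), eventually_ge_atTop 2] with N hlogN hNge
  have hN2 : (2 : ℝ) ≤ N := by exact_mod_cast hNge
  have hL0 : Real.log ((N : ℝ) + 1) ≤ 2 * Real.log N := by
    have h1 : Real.log ((N : ℝ) + 1) ≤ Real.log ((N : ℝ) ^ 2) := Real.log_le_log (by linarith) (by nlinarith)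
    rw [Real.log_pow] at h1
    push_cast at h1
    exact h1
  rw [hKK]
  set L0 := Real.log ((N : ℝ) + 1) with hL0d
  set s := Real.sqrt (Real.log N) with hs
  have hs0 : 0 ≤ s := Real.sqrt_nonneg _
  have hsE : (E : ℝ) ≤ s := Real.le_sqrt_of_sq_le (by linarith)
  have hsL : Real.sqrt L0 ≤ 2 * s := by
    rw [hs, show (2 : ℝ) = Real.sqrt 4 by rw [show (4 : ℝ) = 2 ^ 2 by norm_num, Real.sqrt_sq (by norm_num)],
      ← Real.sqrt_mul (by norm_num)]
    apply Real.sqrt_le_sqrt
    linarith [sq_nonneg (E : ℝ)]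
  have hL00 : 0 ≤ L0 := Real.log_nonneg (by linarith)
  obtain ⟨δ', hδ'⟩ : ∃ δ' : ℝ, δ' = 2 * C / Real.log y + C * η := ⟨_, rfl⟩
  have hδ0 : 0 ≤ δ' := by rw [hδ']; positivity
  have hPB : ∀ τ A : ℝ, 0 < A → A ≤ (N : ℝ) + 1 → |τ| + 160 * K' * Real.sqrt L0 ≤ 322 * K' * s →
      PB (Viol y (322 * K' * s) τ) A 0 δ' := by
    intro τ A hA hAX hτ
    rcases le_or_gt A (y / 2) with hc | hc
    · refine PB_mono hA hδ0 ?_
      intro u v _
      have hemp : cls (Viol y (322 * K' * s) τ) A (2 * A) 0 u v = ∅ := by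
        rw [Finset.eq_empty_iff_forall_notMem]
        intro x hx
        rw [mem_cls] at hx
        obtain ⟨⟨_, h6⟩, _, ⟨j, h7, _⟩, _⟩ := hx
        have h8 := h7 0 (Nat.zero_le _)
        rw [Function.iterate_zero, id] at h8
        linarith
      rw [hemp]
      simp
    · have hlA : Real.log (y / 2) < Real.log A := Real.log_lt_log (by positivity) hc
      have hlAL : Real.log A ≤ L0 := Real.log_le_log hA hAX
      have h1 : Real.sqrt (Real.sqrt (L0 * Real.log A)) ≤ Real.sqrt L0 := by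
        apply Real.sqrt_le_sqrt
        calc Real.sqrt (L0 * Real.log A) ≤ Real.sqrt (L0 * L0) :=
              Real.sqrt_le_sqrt (mul_le_mul_of_nonneg_left hlAL hL00)
          _ = L0 := Real.sqrt_mul_self hL00
      have h2 := hall K' L0 y (322 * K' * s) hK4 hy hy1000 τ A hc (by
        have h3 := mul_le_mul_of_nonneg_left h1 (show 0 ≤ 160 * K' by linarith)
        linarith) hlAL 0 (by
        have : 0 ≤ Real.log A := by linarith
        simpa using this)
      refine PB_mono hA ?_ h2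
      have h4 : Real.log A / L0 ≤ 1 := by
        rw [div_le_one (by linarith)]
        exact hlAL
      have h5 : 0 ≤ C * Real.exp (-(K' ^ 2 / 32)) := by positivity
      have h6 : C * Real.exp (-(K' ^ 2 / 32)) * (Real.log A / L0) ≤ C * Real.exp (-(K' ^ 2 / 32)) * 1 :=
        mul_le_mul_of_nonneg_left h4 h5
      rw [hδ', hη]
      linarith
  have h7 := viol_count (y := y) (D := 322 * K' * s) (δ := δ') (R := 160 * K' * Real.sqrt L0) (X0 := (N : ℝ) + 1)
    hδ0 (by positivity) hPB E 0 ((N : ℝ) + 1) (by linarith) le_rfl (by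
      rw [abs_zero]
      have h8 := mul_le_mul_of_nonneg_left hsL (show 0 ≤ 160 * K' by linarith)
      nlinarith)
  have h9 : cnt (fun n => (n : ℤ) ∈ Viol y (322 * K' * s) 0) N ≤ ((pos (Viol y (322 * K' * s) 0) ((N : ℝ) + 1)).card : ℝ) := by
    classical
    rw [cnt_eq]
    have h10 : ((Icc 1 N).filter fun n : ℕ => (n : ℤ) ∈ Viol y (322 * K' * s) 0).image (fun n : ℕ => (n : ℤ)) ⊆
        pos (Viol y (322 * K' * s) 0) ((N : ℝ) + 1) := by
      intro x hx
      rw [mem_image] at hx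
      obtain ⟨n, hn, rfl⟩ := hx
      rw [mem_filter, mem_Icc] at hn
      rw [mem_pos]
      refine ⟨⟨by exact_mod_cast hn.1.1, ?_⟩, hn.2⟩
      push_cast
      have : (n : ℝ) ≤ N := by exact_mod_cast hn.1.2
      linarith
    have h11 := card_le_card h10
    rw [card_image_of_injective _ (fun a b h => by exact_mod_cast h)] at h11
    exact_mod_cast h11
  have h12 : ((N : ℝ) + 1) / 2 ^ E ≤ η * (N + 1) := by
    rw [div_eq_mul_one_div, mul_comm]
    exact mul_le_mul_of_nonneg_right hE2 (by linarith)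
  refine h9.trans (h7.trans ?_)
  have h13 : δ' * ((N : ℝ) + 1) + η * (N + 1) ≤ (δ' + η) * (2 * N) := by nlinarith
  refine (by linarith : δ' * ((N : ℝ) + 1) + ((N : ℝ) + 1) / 2 ^ E ≤ (δ' + η) * (2 * N)).trans ?_
  have h14 : (δ' + η) * (2 * N) = (2 * (δ' + η)) * N := by ring
  rw [h14]
  apply mul_le_mul_of_nonneg_right _ (Nat.cast_nonneg _)
  rw [hδ', ← hKK, ← hexp, ← hη]
  have h15 : 2 * (2 * C / Real.log y + C * η + η) = 4 * C * (1 / Real.log y) + (2 * C + 2) * η := by ring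
  rw [h15]
  have h16 : 0 ≤ 1 / Real.log y := by positivity
  have h17 := Real.exp_pos (c * 1288 ^ 2)
  have h18 : 4 * C * (1 / Real.log y) ≤ C' * (1 / Real.log y) := mul_le_mul_of_nonneg_right (by rw [hC']; linarith) h16
  have h19 : (2 * C + 2) * η ≤ C' * η := mul_le_mul_of_nonneg_right (by rw [hC']; linarith) hη0.le
  linarith

end Pool.Agent.H46.CO
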