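import Pool.Graph.R_pool_sql_team_seeded_c8625f6e.K4H16.CG.IL9
import Pool.Agent.H46.SW.NumU

/-!
# The simple random walk: maximal inequality
-/

set_option autoImplicit false

namespace Pool.Agent.H46.CO

open Finset

/-- the sign of a toss -/
def sg (b : Bool) : ℝ := if b then 1 else -1

lemma sg_abs (b : Bool) : |sg b| = 1 := by cases b <;> simp [sg]

/-- the walk -/
def wk {k : ℕ} (e : Fin k → Bool) (j : ℕ) : ℝ := ∑ i : Fin k, if (i : ℕ) < j then sg (e i) else 0

lemma wk_zero {k : ℕ} (e : Fin k → Bool) : wk e 0 = 0 := by simp [wk]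

lemma wk_cons {k : ℕ} (b : Bool) (e : Fin k → Bool) (j : ℕ) :
    wk (Fin.cons b e : Fin (k + 1) → Bool) (j + 1) = sg b + wk e j := by
  unfold wk
  rw [Fin.sum_univ_succ]
  simp

open Classical in
/-- the number of the words with a property -/
noncomputable def np (k : ℕ) (P : (Fin k → Bool) → Prop) : ℝ := ((univ.filter P).card : ℝ)

lemma np_nonneg (k : ℕ) (P : (Fin k → Bool) → Prop) : 0 ≤ np k P := by unfold np; positivity

lemma np_mono {k : ℕ} {P Q : (Fin k → Bool) → Prop} (h : ∀ e, P e → Q e) : np k P ≤ np k Q := by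
  classical
  unfold np
  exact_mod_cast card_le_card (monotone_filter_right univ (fun e _ => h e))

lemma np_congr {k : ℕ} {P Q : (Fin k → Bool) → Prop} (h : ∀ e, P e ↔ Q e) : np k P = np k Q :=
  le_antisymm (np_mono fun e => (h e).1) (np_mono fun e => (h e).2)

lemma np_eq_card {k : ℕ} {P Q : (Fin k → Bool) → Prop} [DecidablePred Q] (h : ∀ e, P e ↔ Q e) :
    np k P = ((univ.filter Q).card : ℝ) := by
  classical
  unfold np
  rw [Nat.cast_inj]
  apply congrArg
  ext e
  simp only [mem_filter, h e]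

lemma np_le (k : ℕ) (P : (Fin k → Bool) → Prop) : np k P ≤ 2 ^ k := by
  classical
  unfold np
  have := card_filter_le (univ : Finset (Fin k → Bool)) P
  rw [card_univ, Fintype.card_fun, Fintype.card_bool, Fintype.card_fin] at this
  exact_mod_cast this

lemma np_or {k : ℕ} {P Q R : (Fin k → Bool) → Prop} (h : ∀ e, P e → Q e ∨ R e) : np k P ≤ np k Q + np k R := by
  classical
  unfold np
  have hsub : univ.filter P ⊆ univ.filter Q ∪ univ.filter R := by
    intro e he
    rw [mem_filter] at he
    rw [mem_union, mem_filter, mem_filter]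
    rcases h e he.2 with h | h
    · exact Or.inl ⟨mem_univ _, h⟩
    · exact Or.inr ⟨mem_univ _, h⟩
  exact_mod_cast (card_le_card hsub).trans (card_union_le _ _)

lemma np_biUnion {k : ℕ} {ι : Type} (T : Finset ι) {P : (Fin k → Bool) → Prop} (Q : ι → (Fin k → Bool) → Prop)
    (h : ∀ e, P e → ∃ i ∈ T, Q i e) : np k P ≤ ∑ i ∈ T, np k (Q i) := by
  classical
  unfold np
  have hsub : univ.filter P ⊆ T.biUnion fun i => univ.filter (Q i) := by
    intro e he
    rw [mem_filter] at he
    obtain ⟨i, hi, hQ⟩ := h e he.2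
    rw [mem_biUnion]
    exact ⟨i, hi, mem_filter.2 ⟨mem_univ _, hQ⟩⟩
  exact_mod_cast (card_le_card hsub).trans card_biUnion_le

lemma np_empty {k : ℕ} {P : (Fin k → Bool) → Prop} (h : ∀ e, ¬ P e) : np k P = 0 := by
  classical
  unfold np
  rw [filter_false_of_mem (fun e _ => h e)]
  simp

lemma np_cons {k : ℕ} (P : (Fin (k + 1) → Bool) → Prop) :
    np (k + 1) P = np k (fun e => P (Fin.cons true e)) + np k (fun e => P (Fin.cons false e)) := by
  classical
  unfold np
  rw [card_filter, card_filter, card_filter]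
  rw [← (Fin.consEquiv (fun _ : Fin (k + 1) => Bool)).sum_comp]
  rw [Fintype.sum_prod_type]
  simp only [Fin.consEquiv, Equiv.coe_fn_mk, Fintype.sum_bool]
  norm_cast

/-- **the maximal inequality** -/
theorem max_ineq (s : ℝ) (hs : s = 1 ∨ s = -1) (t : ℝ) (n : ℕ) : ∀ (k : ℕ) (a : ℝ), 0 ≤ t →
    np k (fun e => ∃ j ≤ n, a ≤ s * wk e j) ≤ 2 ^ k * Real.exp (-(t * a) + t ^ 2 * n / 2) := by
  induction n with
  | zero =>
    intro k a ht
    rcases le_or_gt a 0 with ha | ha
    · refine (np_le _ _).trans ?_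
      have h2 : 1 ≤ Real.exp (-(t * a) + t ^ 2 * ((0 : ℕ) : ℝ) / 2) := by
        apply Real.one_le_exp
        push_cast
        nlinarith
      have h3 : (0 : ℝ) < 2 ^ k := by positivity
      nlinarith
    · rw [np_empty]
      · positivity
      · rintro e ⟨j, hj, h⟩
        rw [Nat.le_zero.1 hj, wk_zero] at h
        linarith
  | succ n ih =>
    intro k a ht
    rcases le_or_gt a 0 with ha | ha
    · refine (np_le _ _).trans ?_
      have h2 : 1 ≤ Real.exp (-(t * a) + t ^ 2 * ((n + 1 : ℕ) : ℝ) / 2) := by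
        apply Real.one_le_exp
        have : 0 ≤ t ^ 2 * ((n + 1 : ℕ) : ℝ) / 2 := by positivity
        nlinarith
      have h3 : (0 : ℝ) < 2 ^ k := by positivity
      nlinarith
    · rcases Nat.eq_zero_or_pos k with rfl | hk
      · rw [np_empty]
        · positivity
        · rintro e ⟨j, hj, h⟩
          have : wk e j = 0 := by simp [wk]
          rw [this] at h
          linarith
      obtain ⟨k, rfl⟩ : ∃ k', k = k' + 1 := ⟨k - 1, by omega⟩
      rw [np_cons]
      have key : ∀ b : Bool, ∀ e : Fin k → Bool, (∃ j ≤ n + 1, a ≤ s * wk (Fin.cons b e : Fin (k + 1) → Bool) j) ↔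
          ∃ j ≤ n, a - s * sg b ≤ s * wk e j := by
        intro b e
        constructor
        · rintro ⟨j, hj, h⟩
          rcases j with _ | j
          · rw [wk_zero] at h
            linarith
          · rw [wk_cons, mul_add] at h
            exact ⟨j, by omega, by linarith⟩
        · rintro ⟨j, hj, h⟩
          exact ⟨j + 1, by omega, by rw [wk_cons, mul_add]; linarith⟩
      rw [np_congr (key true), np_congr (key false)]
      have h1 := ih k (a - s * sg true) ht
      have h2 := ih k (a - s * sg false) ht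
      push_cast
      have hc : Real.exp (t * s) + Real.exp (-(t * s)) ≤ 2 * Real.exp (t ^ 2 / 2) := by
        have h3 := Real.cosh_le_exp_half_sq (t * s)
        rw [Real.cosh_eq] at h3
        have h4 : (t * s) ^ 2 = t ^ 2 := by rcases hs with h | h <;> rw [h] <;> ring
        rw [h4] at h3
        linarith
      have f1 : Real.exp (-(t * (a - s * sg true)) + t ^ 2 * n / 2) = Real.exp (-(t * a) + t ^ 2 * n / 2) * Real.exp (t * s) := by
        rw [← Real.exp_add]
        congr 1
        simp [sg]
        ring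
      have f2 : Real.exp (-(t * (a - s * sg false)) + t ^ 2 * n / 2) = Real.exp (-(t * a) + t ^ 2 * n / 2) * Real.exp (-(t * s)) := by
        rw [← Real.exp_add]
        congr 1
        simp [sg]
        ring
      rw [f1] at h1
      rw [f2] at h2
      have f3 : Real.exp (-(t * a) + t ^ 2 * (n + 1) / 2) = Real.exp (-(t * a) + t ^ 2 * n / 2) * Real.exp (t ^ 2 / 2) := by
        rw [← Real.exp_add]
        congr 1
        ring
      rw [f3, pow_succ]
      have h5 := mul_le_mul_of_nonneg_left hc (show 0 ≤ 2 ^ k * Real.exp (-(t * a) + t ^ 2 * n / 2) by positivity)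
      nlinarith

/-- the maximal inequality, optimised, two sides -/
theorem max_abs (n k : ℕ) (hn : 1 ≤ n) (a : ℝ) (ha : 0 ≤ a) :
    np k (fun e => ∃ j ≤ n, a ≤ |wk e j|) ≤ 2 ^ k * (2 * Real.exp (-(a ^ 2 / (2 * n)))) := by
  have hn0 : (0 : ℝ) < n := by exact_mod_cast hn
  have h1 := max_ineq 1 (Or.inl rfl) (a / n) n k a (by positivity)
  have h2 := max_ineq (-1) (Or.inr rfl) (a / n) n k a (by positivity)
  have e : -(a / n * a) + (a / n) ^ 2 * n / 2 = -(a ^ 2 / (2 * n)) := by field_simp; ring
  rw [e] at h1 h2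
  have h3 : np k (fun e => ∃ j ≤ n, a ≤ |wk e j|) ≤ np k (fun e => ∃ j ≤ n, a ≤ 1 * wk e j) + np k (fun e => ∃ j ≤ n, a ≤ -1 * wk e j) := by
    apply np_or
    rintro e ⟨j, hj, h⟩
    rcases abs_choice (wk e j) with h3 | h3
    · exact Or.inl ⟨j, hj, by rw [h3] at h; linarith⟩
    · exact Or.inr ⟨j, hj, by rw [h3] at h; linarith⟩
  linarith

end Pool.Agent.H46.CO
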