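import Pool.Graph.R_seed8.H499R2.CL.F
import Pool.Agent.H46.CO.Walk

/-!
# Parity words of trajectories and the walk of a trajectory
-/

set_option autoImplicit false

namespace Pool.Agent.H46.CO

open Pool.Agent.H320R2.PD Pool.Agent.H499R2.ND Finset

/-- the parity word of length `k` -/
def pt (k : ℕ) (M : ℤ) : Fin k → Bool := fun i => decide ((Td 1)^[(i : ℕ)] M % 2 = 1)

/-- the walk of a trajectory: number of the odd terms minus number of the even terms among the first `j` ones -/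
noncomputable def dv (j : ℕ) (M : ℤ) : ℝ := ∑ i ∈ range j, (if (Td 1)^[i] M % 2 = 1 then (1 : ℝ) else -1)

lemma dv_zero (M : ℤ) : dv 0 M = 0 := by simp [dv]

lemma dv_add (i j : ℕ) (M : ℤ) : dv (i + j) M = dv i M + dv j ((Td 1)^[i] M) := by
  unfold dv
  rw [sum_range_add]
  congr 1
  apply sum_congr rfl
  intro a _
  rw [← Function.iterate_add_apply, add_comm a i]

lemma dv_one (M : ℤ) : dv 1 M = if M % 2 = 1 then (1 : ℝ) else -1 := by
  unfold dv
  rw [sum_range_one]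
  rfl

lemma wk_pt (k : ℕ) (M : ℤ) (j : ℕ) (hj : j ≤ k) : wk (pt k M) j = dv j M := by
  unfold wk dv
  have h1 : (∑ i : Fin k, if (i : ℕ) < j then sg (pt k M i) else 0) =
      ∑ i : Fin k, (fun a : ℕ => if a < j then (if (Td 1)^[a] M % 2 = 1 then (1 : ℝ) else -1) else 0) (i : ℕ) := by
    apply sum_congr rfl
    intro i _
    simp only [pt, sg, decide_eq_true_eq]
  rw [h1, Fin.sum_univ_eq_sum_range (fun a : ℕ => if a < j then (if (Td 1)^[a] M % 2 = 1 then (1 : ℝ) else -1) else 0) k,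
    ← sum_filter]
  apply sum_congr _ fun _ _ => rfl
  ext a
  rw [mem_filter, mem_range, mem_range]
  omega

lemma td_step (k : ℕ) (M M' : ℤ) : ((M % 2 = 1 ↔ M' % 2 = 1) ∧ (2 : ℤ) ^ k ∣ Td 1 M - Td 1 M') ↔ (2 : ℤ) ^ (k + 1) ∣ M - M' := by
  have hmul : ∀ z : ℤ, (2 : ℤ) ^ (k + 1) ∣ 2 * z ↔ (2 : ℤ) ^ k ∣ z := by
    intro z
    rw [pow_succ, mul_comm ((2 : ℤ) ^ k) 2]
    exact mul_dvd_mul_iff_left (by norm_num)
  have hodd : ∀ z : ℤ, (2 : ℤ) ^ k ∣ 3 * z ↔ (2 : ℤ) ^ k ∣ z := by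
    intro z
    constructor
    · intro h
      have hc : IsCoprime ((2 : ℤ) ^ k) 3 := cop_two_pow k
      exact hc.dvd_of_dvd_mul_left h
    · exact fun h => h.mul_left 3
  constructor
  · rintro ⟨h1, h2⟩
    unfold Td at h2
    by_cases h : M % 2 = 0
    · have h' : M' % 2 = 0 := by omega
      rw [if_pos h, if_pos h'] at h2
      have e : M - M' = 2 * (M / 2 - M' / 2) := by omega
      rw [e, hmul]
      exact h2
    · have h' : ¬ M' % 2 = 0 := by omega
      rw [if_neg h, if_neg h'] at h2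
      have e : M - M' = 2 * (M / 2 - M' / 2) := by omega
      rw [e, hmul, ← hodd]
      have e2 : 3 * (M / 2 - M' / 2) = (3 * M + 1) / 2 - (3 * M' + 1) / 2 := by omega
      rw [e2]
      exact h2
  · intro h
    have h2 : (2 : ℤ) ∣ M - M' := (dvd_pow_self 2 (by omega)).trans h
    have hp : M % 2 = M' % 2 := by omega
    refine ⟨by rw [hp], ?_⟩
    unfold Td
    have e : M - M' = 2 * (M / 2 - M' / 2) := by omega
    rw [e, hmul] at h
    by_cases h0 : M % 2 = 0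
    · rw [if_pos h0, if_pos (by omega)]
      exact h
    · rw [if_neg h0, if_neg (by omega)]
      have e2 : (3 * M + 1) / 2 - (3 * M' + 1) / 2 = 3 * (M / 2 - M' / 2) := by omega
      rw [e2, hodd]
      exact h

/-- the parity word of length `k` determines the class modulo `2 ^ k` and conversely -/
theorem pt_iff (k : ℕ) : ∀ M M' : ℤ, pt k M = pt k M' ↔ (2 : ℤ) ^ k ∣ M - M' := by
  induction k with
  | zero =>
    intro M M'
    constructor
    · intro _; simp
    · intro _; funext i; exact i.elim0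
  | succ k ih =>
    intro M M'
    rw [← td_step, ← ih]
    constructor
    · intro h
      refine ⟨?_, ?_⟩
      · have h0 := congrFun h 0
        exact decide_eq_decide.1 h0
      · funext i
        have := congrFun h i.succ
        simp only [pt, Fin.val_succ, Function.iterate_succ_apply] at this ⊢
        exact this
    · rintro ⟨h1, h2⟩
      funext i
      refine Fin.cases ?_ (fun i => ?_) i
      · exact decide_eq_decide.2 h1
      · have := congrFun h2 i
        simp only [pt, Fin.val_succ, Function.iterate_succ_apply] at this ⊢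
        exact this

open Classical in
/-- counting the integers of a class with a property of the parity word -/
theorem word_count (k m : ℕ) {a b : ℝ} (hab : a ≤ b) {u : ℤ} (hu : IsCoprime u 3) (v : ℤ) (P : (Fin k → Bool) → Prop) :
    (((Ico ⌈a⌉ ⌈b⌉).filter fun M : ℤ => P (pt k M) ∧ (3 : ℤ) ^ m ∣ u * M - v).card : ℝ) ≤
      np k P * ((b - a) / (2 ^ k * 3 ^ m) + 1) := by
  have hsub : ((Ico ⌈a⌉ ⌈b⌉).filter fun M : ℤ => P (pt k M) ∧ (3 : ℤ) ^ m ∣ u * M - v) ⊆
      (univ.filter P).biUnion fun e => (Ico ⌈a⌉ ⌈b⌉).filter fun M : ℤ => pt k M = e ∧ (3 : ℤ) ^ m ∣ u * M - v := by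
    intro M hM
    rw [mem_filter] at hM
    rw [mem_biUnion]
    exact ⟨pt k M, mem_filter.2 ⟨mem_univ _, hM.2.1⟩, mem_filter.2 ⟨hM.1, rfl, hM.2.2⟩⟩
  have hone : ∀ e : Fin k → Bool, (((Ico ⌈a⌉ ⌈b⌉).filter fun M : ℤ => pt k M = e ∧ (3 : ℤ) ^ m ∣ u * M - v).card : ℝ) ≤
      (b - a) / (2 ^ k * 3 ^ m) + 1 := by
    intro e
    by_cases h : ∃ M₀ : ℤ, pt k M₀ = e
    · obtain ⟨M₀, hM₀⟩ := h
      obtain ⟨c, hc⟩ := crt k m (g := 1) odd_one hu M₀ v
      have hs : ((Ico ⌈a⌉ ⌈b⌉).filter fun M : ℤ => pt k M = e ∧ (3 : ℤ) ^ m ∣ u * M - v) ⊆ ap a b (2 ^ k * 3 ^ m) c := by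
        intro M hM
        rw [mem_filter, mem_win] at hM
        rw [mem_ap]
        refine ⟨hM.1, (hc M).1 ⟨?_, hM.2.2⟩⟩
        rw [one_mul, ← pt_iff, hM.2.1, hM₀]
      have h1 : (((Ico ⌈a⌉ ⌈b⌉).filter fun M : ℤ => pt k M = e ∧ (3 : ℤ) ^ m ∣ u * M - v).card : ℝ) ≤ (ap a b (2 ^ k * 3 ^ m) c).card := by
        exact_mod_cast card_le_card hs
      have h2 := ap_card_le hab (q := 2 ^ k * 3 ^ m) (by positivity) c
      push_cast at h2
      linarith
    · have : ((Ico ⌈a⌉ ⌈b⌉).filter fun M : ℤ => pt k M = e ∧ (3 : ℤ) ^ m ∣ u * M - v) = ∅ := by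
        rw [filter_eq_empty_iff]
        rintro M _ ⟨hM, _⟩
        exact h ⟨M, hM⟩
      rw [this, card_empty]
      push_cast
      have : 0 ≤ (b - a) / (2 ^ k * 3 ^ m) := div_nonneg (by linarith) (by positivity)
      linarith
  have h1 : (((Ico ⌈a⌉ ⌈b⌉).filter fun M : ℤ => P (pt k M) ∧ (3 : ℤ) ^ m ∣ u * M - v).card : ℝ) ≤
      ∑ e ∈ univ.filter P, (((Ico ⌈a⌉ ⌈b⌉).filter fun M : ℤ => pt k M = e ∧ (3 : ℤ) ^ m ∣ u * M - v).card : ℝ) := by
    exact_mod_cast (card_le_card hsub).trans card_biUnion_le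
  refine h1.trans ((sum_le_sum fun e _ => hone e).trans (le_of_eq ?_))
  rw [sum_const, nsmul_eq_mul]
  rfl

/-- the integers whose walk leaves `(-a, a)` in the first `J` steps -/
def Out (J : ℕ) (a : ℝ) : Set ℤ := {M : ℤ | ∃ j ≤ J, a ≤ |dv j M|}

theorem PB_out {J : ℕ} (hJ : 1 ≤ J) {a : ℝ} (ha : 0 ≤ a) {A : ℝ} (hA : 0 < A) (m : ℕ) (hJm : (2 : ℝ) ^ J * (2 * 3 ^ m / A) ≤ 1) :
    PB (Out J a) A m (6 * Real.exp (-(a ^ 2 / (2 * J)))) := by
  classical
  intro u v hu
  obtain ⟨P, hP⟩ : ∃ P : (Fin J → Bool) → Prop, P = fun e => ∃ j ≤ J, a ≤ |wk e j| := ⟨_, rfl⟩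
  have hs : cls (Out J a) A (2 * A) m u v ⊆ (Ico ⌈A⌉ ⌈2 * A⌉).filter fun M : ℤ => P (pt J M) ∧ (3 : ℤ) ^ m ∣ u * M - v := by
    intro M hM
    rw [mem_cls] at hM
    rw [mem_filter, mem_win]
    obtain ⟨j, hj, h⟩ := hM.2.2.1
    refine ⟨hM.1, ?_, hM.2.2.2⟩
    rw [hP]
    exact ⟨j, hj, by rw [wk_pt J M j hj]; exact h⟩
  have h1 : ((cls (Out J a) A (2 * A) m u v).card : ℝ) ≤
      ((Ico ⌈A⌉ ⌈2 * A⌉).filter fun M : ℤ => P (pt J M) ∧ (3 : ℤ) ^ m ∣ u * M - v).card := by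
    exact_mod_cast card_le_card hs
  have h2 := word_count J m (a := A) (b := 2 * A) (by linarith) hu v P
  have h3 := max_abs J J hJ a ha
  rw [← hP] at h3
  refine h1.trans (h2.trans ?_)
  have e1 : (2 * A - A) / ((2 : ℝ) ^ J * 3 ^ m) + 1 ≤ 3 / 2 * (A / (2 ^ J * 3 ^ m)) := by
    have h4 : (2 : ℝ) ^ J * (2 * 3 ^ m / A) = 2 * (2 ^ J * 3 ^ m) / A := by ring
    rw [h4, div_le_one hA] at hJm
    have h5 : 1 ≤ 1 / 2 * (A / (2 ^ J * 3 ^ m)) := by
      rw [← mul_div_assoc, le_div_iff₀ (by positivity)]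
      linarith
    have h6 : (2 * A - A) / ((2 : ℝ) ^ J * 3 ^ m) = A / (2 ^ J * 3 ^ m) := by congr 1; ring
    rw [h6]
    linarith
  have e2 : 0 ≤ A / ((2 : ℝ) ^ J * 3 ^ m) := by positivity
  calc np J P * ((2 * A - A) / (2 ^ J * 3 ^ m) + 1)
      ≤ (2 ^ J * (2 * Real.exp (-(a ^ 2 / (2 * J))))) * (3 / 2 * (A / (2 ^ J * 3 ^ m))) := by
        apply mul_le_mul h3 e1
        · have : 0 ≤ (2 * A - A) / ((2 : ℝ) ^ J * 3 ^ m) := div_nonneg (by linarith) (by positivity)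
          linarith
        · positivity
    _ = 6 * Real.exp (-(a ^ 2 / (2 * J))) * (A / (2 * 3 ^ m)) := by
        field_simp
        ring

/-- the walk along a word -/
theorem dv_word {w : List ℕ} : (∀ a ∈ w, 1 ≤ a) → ∀ M x : ℤ, Odd M → Odd x → Vw 1 w M x → dv w.sum M = 2 * w.length - w.sum := by
  induction w using List.reverseRecOn with
  | nil =>
    intro _ M x _ _ _
    simp [dv_zero]
  | append_singleton u e ih =>
    intro hw M x hM hx h
    have hu : ∀ a ∈ u, 1 ≤ a := fun a ha => hw a (by simp [ha])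
    obtain ⟨M₁, hM₁, h1, h2⟩ := Vw_snoc odd_one hu hx h
    have h3 := ih hu M₁ x hM₁ hx h2
    have he : 1 ≤ e := hw e (by simp)
    obtain ⟨e', rfl⟩ : ∃ e', e = e' + 1 := ⟨e - 1, by omega⟩
    have h4 : Td 1 M = 2 ^ e' * M₁ := Td_odd hM (by rw [h1, pow_succ]; ring)
    have h5 : (Td 1)^[e' + 1] M = M₁ := by rw [Function.iterate_succ_apply, h4, Td_two_pow]
    have hev : ∀ (i : ℕ) (z : ℤ), dv i (2 ^ i * z) = -(i : ℝ) := by
      intro i
      induction i with
      | zero => intro z; simp [dv_zero]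
      | succ i ih' =>
        intro z
        rw [show i + 1 = 1 + i by ring, dv_add, dv_one, Function.iterate_one]
        have e1 : (2 : ℤ) ^ (1 + i) * z = 2 * (2 ^ i * z) := by ring
        rw [e1, Td_two, ih', if_neg (by omega)]
        push_cast
        ring
    rw [List.sum_append, List.sum_singleton, add_comm u.sum, dv_add, h5, h3, show e' + 1 = 1 + e' by ring, dv_add, dv_one,
      Function.iterate_one, h4, hev, if_pos (Int.odd_iff.1 hM)]
    rw [List.length_append, List.length_singleton]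
    push_cast
    ring

end Pool.Agent.H46.CO
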