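import Pool.Agent.H46.CO.Par
import Pool.Graph.R_seed8.H499R2.CL.G

/-!
# The walk of a trajectory at all scales
-/

set_option autoImplicit false

namespace Pool.Agent.H46.CO

open Pool.Agent.H320R2.PD Pool.Agent.H499R2.ND Finset

/-- the walk started at `τ` leaves `[-D, D]` before the trajectory comes below `y` -/
def Viol (y D τ : ℝ) : Set ℤ := {M : ℤ | ∃ j : ℕ, (∀ i ≤ j, y ≤ (((Td 1)^[i] M : ℤ) : ℝ)) ∧ D < |τ + dv j M|}

lemma viol_word {y D τ a : ℝ} {J : ℕ} (hτ : |τ| + a ≤ D) {w : List ℕ} (hw : ∀ b ∈ w, 1 ≤ b) (hJ : w.sum ≤ J) {M x : ℤ}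
    (hM : Odd M) (hx : Odd x) (hV : M ∈ Viol y D τ) (hO : M ∉ Out J a) (h : Vw 1 w M x) :
    x ∈ Viol y D (τ + (2 * w.length - w.sum)) := by
  obtain ⟨j, hy, hD⟩ := hV
  have hjJ : J < j := by
    by_contra hcon
    push Not at hcon
    have h1 : |dv j M| < a := by
      by_contra h2
      push Not at h2
      exact hO ⟨j, hcon, h2⟩
    have h2 := abs_add_le τ (dv j M)
    linarith
  obtain ⟨j', rfl⟩ : ∃ j', j = w.sum + j' := ⟨j - w.sum, by omega⟩
  have hit := iter_word odd_one w hw M x hM hx h
  have hd := dv_word hw M x hM hx h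
  refine ⟨j', ?_, ?_⟩
  · intro i hi
    have h1 := hy (w.sum + i) (by omega)
    rw [add_comm, Function.iterate_add_apply, hit] at h1
    exact h1
  · rw [dv_add, hit, hd] at hD
    rw [show τ + (2 * (w.length : ℝ) - w.sum) + dv j' x = τ + (2 * w.length - w.sum + dv j' x) by ring]
    exact hD

lemma small_pow {t A : ℝ} (htA : t = Real.log A) (hA : 0 < A) (ht : 1000 ≤ t) {k m : ℕ} (hk : (k : ℝ) ≤ t / 2)
    (hm : (m : ℝ) ^ 2 ≤ t) : (2 : ℝ) ^ (41 * k / 20) * (2 * 3 ^ m / A) ≤ 1 := by
  have hexpA : Real.exp t = A := by rw [htA]; exact Real.exp_log hA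
  have h1 := pow_tm_le (by linarith : 0 ≤ t) hk
  have h2 := pow_m_le ht hm
  have h3 : (2 : ℝ) ^ (41 * k / 20) * (2 * 3 ^ m / A)
      ≤ Real.exp (0.7106 * t) * (2 * Real.exp (0.05 * t) / Real.exp t) := by
    rw [← hexpA]
    apply mul_le_mul h1 _ (by positivity) (Real.exp_pos _).le
    apply div_le_div_of_nonneg_right _ (Real.exp_pos _).le
    linarith
  have h4 : Real.exp (0.7106 * t) * (2 * Real.exp (0.05 * t) / Real.exp t)
      = 2 * Real.exp (0.7106 * t + 0.05 * t - t) := by
    rw [Real.exp_sub, Real.exp_add]; ring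
  rw [h4] at h3
  have hexpsmall : Real.exp (0.7106 * t + 0.05 * t - t) ≤ 1 / 2 := by
    have h5 : Real.exp (0.7106 * t + 0.05 * t - t) ≤ Real.exp (-(t / 5)) := Real.exp_le_exp.2 (by linarith)
    refine h5.trans ?_
    have h6 := Real.add_one_le_exp (t / 5)
    rw [Real.exp_neg, inv_eq_one_div]
    apply one_div_le_one_div_of_le (by norm_num)
    linarith
  linarith

/-- **all scales** -/
theorem all_scalesV : ∃ C : ℝ, 0 < C ∧ ∀ K L0 y D : ℝ, 4 ≤ K → 0 < y → 1000 ≤ Real.log (y / 2) →
    ∀ τ A : ℝ, y / 2 < A → |τ| + 160 * K * Real.sqrt (Real.sqrt (L0 * Real.log A)) ≤ D → Real.log A ≤ L0 → ∀ m : ℕ,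
      (m : ℝ) ^ 2 ≤ Real.log A →
      PB (Viol y D τ) A m (C / Real.log (y / 2) + C * Real.exp (-(K ^ 2 / 32)) * (Real.log A / L0)) := by
  obtain ⟨C1, hC1, herr⟩ := err_flex 1 1
  refine ⟨20 * C1 + 7200000 + 720, by positivity, ?_⟩
  intro K L0 y D₀ hK hy ht0
  set t0 := Real.log (y / 2) with ht0def
  have ht0pos : 0 < t0 := by linarith
  set E := Real.exp (-(K ^ 2 / 32)) with hE
  have hE0 : 0 < E := Real.exp_pos _
  set D := C1 + 360000 with hD
  have hD0 : 0 < D := by positivity
  have main : ∀ n : ℕ, ∀ τ A : ℝ, y / 2 < A → |τ| + 160 * K * Real.sqrt (Real.sqrt (L0 * Real.log A)) ≤ D₀ →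
      Real.log A ≤ L0 → Real.log A ≤ t0 + n → ∀ m : ℕ, (m : ℝ) ^ 2 ≤ Real.log A →
        PB (Viol y D₀ τ) A m (10 * D * (2 / t0 - 1 / Real.log A) + 720 * E * (Real.log A / L0)) := by
    intro n
    induction n with
    | zero =>
      intro τ A hyA _ _ hlog
      exfalso
      have : t0 < Real.log A := Real.log_lt_log (by positivity) hyA
      rw [Nat.cast_zero, add_zero] at hlog
      linarith
    | succ n ih =>
      intro τ A hyA hok hL0 hlog m hm
      have hA : 0 < A := lt_trans (by positivity) hyA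
      set t := Real.log A with htdef
      have ht0t : t0 < t := Real.log_lt_log (by positivity) hyA
      have htpos : 0 < t := by linarith
      have ht1000 : 1000 ≤ t := by linarith
      have hL0pos : 0 < L0 := by linarith
      obtain ⟨k, hk⟩ : ∃ k : ℕ, k = ⌊t / 2⌋₊ := ⟨_, rfl⟩
      obtain ⟨m', hm'⟩ : ∃ m' : ℕ, m' = ⌊Real.sqrt (0.8 * t)⌋₊ := ⟨_, rfl⟩
      have hk1 : (k : ℝ) ≤ t / 2 := by rw [hk]; exact Nat.floor_le (by linarith)
      have hk2 : t / 2 - 1 ≤ k := by rw [hk]; linarith [Nat.lt_floor_add_one (t / 2)]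
      have hk25 : 2 / 5 * t ≤ k := by linarith
      have hk1R : (1 : ℝ) ≤ k := by linarith
      have hk1N : 1 ≤ k := by exact_mod_cast hk1R
      have hm'sq : (m' : ℝ) ^ 2 ≤ 0.8 * t := by
        have h1 : (m' : ℝ) ≤ Real.sqrt (0.8 * t) := by
          rw [hm']; exact Nat.floor_le (Real.sqrt_nonneg _)
        calc (m' : ℝ) ^ 2 ≤ (Real.sqrt (0.8 * t)) ^ 2 :=
              pow_le_pow_left₀ (Nat.cast_nonneg _) h1 2
          _ = 0.8 * t := Real.sq_sqrt (by linarith)
      have hm'k : m' ≤ k := by
        have : (m' : ℝ) ≤ k := by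
          have h0 : (0 : ℝ) ≤ m' := Nat.cast_nonneg _
          by_contra hcon
          push Not at hcon
          nlinarith
        exact_mod_cast this
      have hEr := herr A hA ht1000 k m m' hm hk25 hk1 hm'
      rw [← htdef, pow_one] at hEr
      have hw0 := wid_pos (K := K) (L0 := L0) (L := t) hK htpos hL0
      have hwk : wid K L0 t ≤ k / 20 := by
        refine (min_le_right _ _).trans ?_
        linarith
      have hwK : wid K L0 t ≤ K * Real.sqrt (Real.sqrt (L0 * t)) := min_le_left _ _
      obtain ⟨Tl, Tm, hTm, hTT, hmass⟩ := mass_win hk1N hw0 hwk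
      have hmass2 := exp_wid hK htpos hL0 hk1 hk1N
      have hs0 : 0 ≤ K * Real.sqrt (Real.sqrt (L0 * t)) := by positivity
      set ρ9 := 10 * D * (2 / t0 - 1 / (0.9 * t)) + 720 * E * (0.9 * t / L0) with hρ9
      have hρ90 : 0 ≤ ρ9 := by
        have h1 : 1 / (0.9 * t) ≤ 2 / t0 := by
          rw [div_le_div_iff₀ (by positivity) ht0pos]
          linarith
        have h2 : 0 ≤ 10 * D * (2 / t0 - 1 / (0.9 * t)) := mul_nonneg (by positivity) (by linarith)
        have h3 : 0 ≤ 720 * E * (0.9 * t / L0) := by positivity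
        linarith
      -- the excursions inside the stage
      have hJ1 : 1 ≤ 41 * k / 20 := by omega
      have hout := PB_out hJ1 hw0.le hA m (small_pow htdef hA ht1000 hk1 hm)
      have hout2 : 6 * Real.exp (-(wid K L0 t ^ 2 / (2 * ((41 * k / 20 : ℕ) : ℝ)))) ≤ 2 * (3 * Real.exp (-(wid K L0 t ^ 2 / (32 * k)))) := by
        have h1 : (2 : ℝ) * ((41 * k / 20 : ℕ) : ℝ) ≤ 32 * k := by
          have h2 : 41 * k / 20 ≤ 3 * k := by omega
          have h3 : ((41 * k / 20 : ℕ) : ℝ) ≤ 3 * k := by exact_mod_cast h2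
          linarith
        have h4 : (0 : ℝ) < 2 * ((41 * k / 20 : ℕ) : ℝ) := by
          have : (1 : ℝ) ≤ ((41 * k / 20 : ℕ) : ℝ) := by exact_mod_cast hJ1
          linarith
        have h5 : Real.exp (-(wid K L0 t ^ 2 / (2 * ((41 * k / 20 : ℕ) : ℝ)))) ≤ Real.exp (-(wid K L0 t ^ 2 / (32 * k))) := by
          apply Real.exp_le_exp.2
          apply neg_le_neg
          exact div_le_div_of_nonneg_left (sq_nonneg _) h4 h1
        linarith
      have hnext : ∀ T : ℕ, Tl ≤ T → T ≤ Tm →
          PB (Viol y D₀ (τ + (2 * k - T))) (A * 3 ^ k / 2 ^ T) m' ρ9 := by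
        intro T hT1 hT2
        have hTa := (hTT T).1 ⟨hT1, hT2⟩
        have hnf := next_flex hA ht1000 hk25 hk1 (hTa.trans hwk)
        have htn := TG.tight_next (K := K) (L0 := L0) (by linarith) hA ht1000 hL0 (T := T) (by rw [← htdef, ← hk]; exact hTa)
        rw [← htdef, ← hk] at htn
        have h3 := htn.2.2
        set A' := A * 3 ^ k / 2 ^ T with hA'
        have hA'pos : 0 < A' := by positivity
        have hm'A : (m' : ℝ) ^ 2 ≤ Real.log A' := hm'sq.trans hnf.1
        have hlA' : 800 ≤ Real.log A' := by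
          have h8 := hnf.1
          linarith
        have hlA'pos : 0 < Real.log A' := by linarith
        have hok' : |τ + (2 * (k : ℝ) - T)| + 160 * K * Real.sqrt (Real.sqrt (L0 * Real.log A')) ≤ D₀ := by
          have h4 := abs_add_le τ (2 * (k : ℝ) - T)
          rw [abs_sub_comm] at hTa
          linarith
        rcases le_or_gt A' (y / 2) with hc | hc
        · refine PB_mono hA'pos hρ90 ?_
          intro u v _
          have hemp : cls (Viol y D₀ (τ + (2 * (k : ℝ) - T))) A' (2 * A') m' u v = ∅ := by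
            rw [Finset.eq_empty_iff_forall_notMem]
            intro x hx
            rw [mem_cls] at hx
            obtain ⟨⟨_, h6⟩, _, ⟨j, h7, _⟩, _⟩ := hx
            have h8 := h7 0 (Nat.zero_le _)
            rw [Function.iterate_zero, id] at h8
            linarith
          rw [hemp]
          simp
        · have hih := ih (τ + (2 * (k : ℝ) - T)) A' hc hok' (by linarith [hnf.2.1]) (by
            have h9 : Real.log A' ≤ 0.9 * t := hnf.2.1
            push_cast at hlog
            linarith) m' hm'A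
          refine PB_mono hA'pos ?_ hih
          rw [hρ9]
          have h9 : Real.log A' ≤ 0.9 * t := hnf.2.1
          have e1 : 1 / (0.9 * t) ≤ 1 / Real.log A' := one_div_le_one_div_of_le hlA'pos h9
          have e2 : 10 * D * (2 / t0 - 1 / Real.log A') ≤ 10 * D * (2 / t0 - 1 / (0.9 * t)) :=
            mul_le_mul_of_nonneg_left (by linarith) (by positivity)
          have e3 : 720 * E * (Real.log A' / L0) ≤ 720 * E * (0.9 * t / L0) := by
            apply mul_le_mul_of_nonneg_left _ (by positivity)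
            exact div_le_div_of_nonneg_right h9 hL0pos.le
          linarith
      have hst := stageW odd_one isCoprime_one_left (S := Viol y D₀ τ \ Out (41 * k / 20) (wid K L0 t))
        (fun T => Viol y D₀ (τ + (2 * k - T))) hA hk1N hm'k
        (m := m) (Tl := Tl) (Tm := Tm) hTm (ρ := fun _ => ρ9) (by
          intro w hw M x hM hx hM1 _ hMS hV
          unfold GW at hw
          rw [mem_filter] at hw
          have hp := FW_props hw.1
          have h1 := viol_word (y := y) (D := D₀) (τ := τ) (a := wid K L0 t) (J := 41 * k / 20) (by linarith) hp.2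
            (hw.2.2.trans hTm) hM hx hMS.1 hMS.2 hV
          rw [hp.1] at h1
          exact h1) hnext
      have hun := PB_union hst hout
      refine PB_mono hA ?_ (PB_sub (fun x _ _ hx => ?_) hun)
      · rw [← sum_mul]
        have hmass1 : ∑ w ∈ GW (3 * k) k Tl Tm, wwt w ≤ 1 := by
          refine le_trans ?_ (sum_wwt_le (3 * k) k)
          unfold GW
          apply sum_le_sum_of_subset_of_nonneg (filter_subset _ _)
          intro w _ _; unfold wwt; positivity
        have e1 : (∑ w ∈ GW (3 * k) k Tl Tm, wwt w) * ρ9 ≤ ρ9 := by nlinarith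
        have e2 : ρ9 + D / t + 72 * E * (t / L0) ≤ 10 * D * (2 / t0 - 1 / t) + 720 * E * (t / L0) := by
          rw [hρ9]
          have f1 : 1 / (0.9 * t) = 10 / 9 * (1 / t) := by field_simp; norm_num
          have f2 : 0.9 * t / L0 = 0.9 * (t / L0) := by ring
          have f3 : D / t = D * (1 / t) := by ring
          rw [f1, f2, f3]
          have f4 : 0 < D * (1 / t) := by positivity
          have f5 : 0 < E * (t / L0) := by positivity
          nlinarith
        have e3 : D / t = C1 / t + 360000 / t := by rw [hD]; ring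
        have e4 : (360000 : ℝ) / t = 3 * (120000 / t) := by ring
        linarith
      · by_cases h : x ∈ Out (41 * k / 20) (wid K L0 t)
        · exact Or.inr h
        · exact Or.inl ⟨hx, h⟩
  intro τ A hyA hokA hL0 m hm
  have hA : 0 < A := lt_trans (by positivity) hyA
  obtain ⟨n, hn⟩ := exists_nat_ge (Real.log A - t0)
  have h1 := main n τ A hyA hokA hL0 (by linarith) m hm
  refine PB_mono hA ?_ h1
  have hlt : t0 < Real.log A := Real.log_lt_log (by positivity) hyA
  have hlA : 0 < Real.log A := by linarith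
  have hL0p : 0 < L0 := by linarith
  have h2 : 0 < 1 / Real.log A := by positivity
  have h3 : 10 * D * (2 / t0 - 1 / Real.log A) ≤ 20 * D / t0 := by
    have : 20 * D / t0 = 10 * D * (2 / t0) := by ring
    rw [this]
    apply mul_le_mul_of_nonneg_left _ (by positivity)
    linarith
  have h4 : 20 * D / t0 ≤ (20 * C1 + 7200000 + 720) / t0 := by
    apply div_le_div_of_nonneg_right _ ht0pos.le
    rw [hD]
    linarith
  have h5 : 720 * E * (Real.log A / L0) ≤ (20 * C1 + 7200000 + 720) * E * (Real.log A / L0) := by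
    apply mul_le_mul_of_nonneg_right _ (by positivity)
    apply mul_le_mul_of_nonneg_right _ hE0.le
    linarith
  linarith

end Pool.Agent.H46.CO
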