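import Pool.Agent.H46.CO.Mx2

/-!
# Sizes of the terms
-/

set_option autoImplicit false

namespace Pool.Agent.H46.CO

open Pool.Agent.H320R2.PD Pool.Agent.H499R2.ND Finset Filter Topology
open Pool.Agent.R469

/-- the deviation of the logarithm of the term `j` from its expected value -/
noncomputable def sd (j n : ℕ) : ℝ := Real.log ((Tn^[j] n : ℕ) : ℝ) - (Real.log n - j / 2 * Real.log (4 / 3))

lemma rig_T : Rig.T = Tn := by
  funext n
  rfl

lemma dn_odds (j n : ℕ) : dn j n = 2 * (Rig.odds j n : ℝ) - j := by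
  rw [dn_eq]
  unfold Rig.odds
  rw [rig_T]

lemma log43 : Real.log (4 / 3) = 2 * Real.log 2 - Real.log 3 := by
  rw [Real.log_div (by norm_num) (by norm_num), show (4 : ℝ) = 2 ^ 2 by norm_num, Real.log_pow]
  push_cast; ring

lemma sd_eq (j n : ℕ) : sd j n = Real.log 3 / 2 * dn j n +
    (Real.log ((Tn^[j] n : ℕ) : ℝ) - (Real.log n + Rig.odds j n * Real.log 3 - j * Real.log 2)) := by
  unfold sd
  rw [dn_odds, log43]
  ring

lemma size_basin : ∃ K₀ : ℝ, 0 < K₀ ∧ ∀ n t j : ℕ, 1 ≤ n → TST n t → j ≤ t → |sd j n - Real.log 3 / 2 * dn j n| ≤ K₀ := by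
  obtain ⟨K, hK0, hK⟩ := Rig.log_upper
  refine ⟨K, hK0, fun n t j hn ht hj => ?_⟩
  have hinj := Rig.inj_of_least (f := Rig.T) (n := n) (k := t) (by
    rw [rig_T]
    refine ⟨ht.1, fun i hi => ?_⟩
    by_contra hcon
    push Not at hcon
    exact ht.2 i hcon hi)
  have h1 := Rig.log_lower hn j
  have h2 := hK n j hn (fun i hi i' hi' => hinj i (by omega) i' (by omega)) 1 le_rfl (fun i _ => by exact_mod_cast Rig.iter_pos hn i)
  rw [Real.one_rpow, mul_one] at h2
  rw [rig_T] at h1 h2
  rw [sd_eq, abs_le]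
  constructor <;> linarith

lemma up_simple (n : ℕ) (hn : 1 ≤ n) (N : ℝ) (hN : 0 < N) (k : ℕ) : (∀ j < k, N ≤ ((Tn^[j] n : ℕ) : ℝ)) →
    Real.log ((Tn^[k] n : ℕ) : ℝ) ≤ Real.log n + Rig.odds k n * Real.log 3 - k * Real.log 2 + k / (3 * N) := by
  induction k with
  | zero =>
    intro _
    rw [Rig.odds_zero]
    simp
  | succ k ih =>
    intro h
    have ih' := ih (fun j hj => h j (by omega))
    have hx := h k (by omega)
    have hpos : 1 ≤ Tn^[k] n := Tn_iter_pos hn k
    rw [Rig.odds_succ, rig_T, Function.iterate_succ_apply']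
    obtain ⟨x, hxd⟩ : ∃ x : ℕ, x = Tn^[k] n := ⟨_, rfl⟩
    rw [← hxd] at ih' hx hpos ⊢
    have hx0 : (0 : ℝ) < x := by exact_mod_cast hpos
    rcases Nat.mod_two_eq_zero_or_one x with h0 | h1
    · have e : ((Tn x : ℕ) : ℝ) = x / 2 := by
        have := Rig.T_even h0
        rw [rig_T] at this
        have h2 : (2 : ℝ) * (Tn x : ℕ) = x := by exact_mod_cast this
        linarith
      rw [e, Real.log_div hx0.ne' (by norm_num), h0]
      have : 0 < 1 / (3 * N) := by positivity
      push_cast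
      have e2 : ((k : ℝ) + 1) / (3 * N) = k / (3 * N) + 1 / (3 * N) := by ring
      rw [e2]
      linarith
    · have e : ((Tn x : ℕ) : ℝ) = 3 * x / 2 * (1 + 1 / (3 * x)) := by
        have := Rig.T_odd h1
        rw [rig_T] at this
        have h2 : (2 : ℝ) * (Tn x : ℕ) = 3 * x + 1 := by exact_mod_cast this
        field_simp
        linarith
      have h3 : Real.log (1 + 1 / (3 * (x : ℝ))) ≤ 1 / (3 * x) := by
        have := Real.log_le_sub_one_of_pos (show 0 < 1 + 1 / (3 * (x : ℝ)) by positivity)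
        linarith
      have h4 : 1 / (3 * (x : ℝ)) ≤ 1 / (3 * N) := one_div_le_one_div_of_le (by positivity) (by linarith)
      rw [e, Real.log_mul (by positivity) (by positivity), Real.log_div (by positivity) (by norm_num),
        Real.log_mul (by norm_num) hx0.ne', h1]
      push_cast
      have e2 : ((k : ℝ) + 1) / (3 * N) = k / (3 * N) + 1 / (3 * N) := by ring
      rw [e2]
      linarith

/-- the first terms -/
lemma size_short : ∃ n₁ : ℕ, ∀ n j : ℕ, n₁ ≤ n → (j : ℝ) ≤ Real.log n / 2 → |sd j n - Real.log 3 / 2 * dn j n| ≤ 1 := by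
  refine ⟨8, fun n j hn hj => ?_⟩
  have hn1 : 1 ≤ n := by omega
  have hn0 : (0 : ℝ) < n := by exact_mod_cast hn1
  have hlog1 : 1 ≤ Real.log n := by
    rw [Real.le_log_iff_exp_le hn0]
    have h1 := Real.exp_one_lt_d9
    have h2 : (8 : ℝ) ≤ n := by exact_mod_cast hn
    linarith
  -- the minimum
  have hmin : ∀ i < j, (n : ℝ) / 2 ^ j ≤ ((Tn^[i] n : ℕ) : ℝ) := by
    intro i hi
    have h1 := Rig.log_lower hn1 i
    rw [rig_T] at h1
    have h2 : (0 : ℝ) < ((Tn^[i] n : ℕ) : ℝ) := by exact_mod_cast Tn_iter_pos hn1 i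
    rw [← Real.log_le_log_iff (by positivity) h2, Real.log_div hn0.ne' (by positivity), Real.log_pow]
    have h3 : (0 : ℝ) ≤ Rig.odds i n * Real.log 3 := mul_nonneg (Nat.cast_nonneg _) (Real.log_nonneg (by norm_num))
    have h4 : (i : ℝ) * Real.log 2 ≤ j * Real.log 2 := by
      apply mul_le_mul_of_nonneg_right _ (Real.log_nonneg (by norm_num))
      exact_mod_cast hi.le
    linarith
  have hpos : (0 : ℝ) < n / 2 ^ j := by positivity
  have h1 := up_simple n hn1 _ hpos j hmin
  have h2 := Rig.log_lower hn1 j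
  rw [rig_T] at h2
  have h3 : (j : ℝ) / (3 * (n / 2 ^ j)) ≤ 1 := by
    rw [div_le_one (by positivity)]
    have h4 : (2 : ℝ) ^ j ≤ Real.exp (Real.log n / 2) := by
      have h5 : (2 : ℝ) ^ j = Real.exp (j * Real.log 2) := by
        rw [mul_comm, Real.exp_mul, Real.exp_log (by norm_num), Real.rpow_natCast]
      rw [h5]
      apply Real.exp_le_exp.2
      have h6 := Real.log_two_lt_d9
      have h7 : (0 : ℝ) ≤ j := Nat.cast_nonneg _
      nlinarith
    have h5 : Real.exp (Real.log n / 2) * Real.exp (Real.log n / 2) = n := by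
      rw [← Real.exp_add, add_halves, Real.exp_log hn0]
    have h6 : Real.exp (Real.log n / 2) ≤ n / 2 ^ j := by
      rw [le_div_iff₀ (by positivity)]
      calc Real.exp (Real.log n / 2) * 2 ^ j ≤ Real.exp (Real.log n / 2) * Real.exp (Real.log n / 2) :=
            mul_le_mul_of_nonneg_left h4 (Real.exp_pos _).le
        _ = n := h5
    have h7 := Real.add_one_le_exp (Real.log n / 2)
    linarith
  rw [sd_eq, abs_le]
  constructor <;> linarith

end Pool.Agent.H46.CO
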